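import Mathlib

/-!
Countable groups with an infinite conjugacy class, and groups with finite conjugacy classes.
-/

set_option autoImplicit false

namespace Pool.Agent.Y225.HN

/-- every conjugacy class is finite -/
def FC (Γ : Type) [Group Γ] : Prop := ∀ x : Γ, (Set.range fun g : Γ => g * x * g⁻¹).Finite

section infinite

variable {Γ : Type} [Group Γ] [Countable Γ]

/-- If the conjugacy class of `τ` is infinite there is a set which contains a right translate of
every finite set and which is disjoint from its translate by `τ`. -/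
theorem exists_translates {τ : Γ} (hτ : (Set.range fun g : Γ => g * τ * g⁻¹).Infinite) :
    ∃ A : Set Γ, (∀ S : Set Γ, S.Finite → ∃ k, ∀ x ∈ S, x * k ∈ A) ∧ ∀ x ∈ A, x * τ ∉ A := by
  classical
  obtain ⟨e, he⟩ := exists_surjective_nat Γ
  let F : ℕ → Finset Γ := fun i => (Finset.range (i + 1)).image e
  have hF : ∀ {i j : ℕ}, i ≤ j → F i ⊆ F j := fun {i j} h =>
    Finset.image_subset_image (Finset.range_subset_range.mpr (by omega))
  have key := exists_seq_of_forall_finset_exists
    (fun p : ℕ × Γ => ∀ a ∈ F p.1, ∀ b ∈ F p.1, a * p.2 * τ ≠ b * p.2)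
    (fun p p' : ℕ × Γ => p.1 < p'.1 ∧ ∀ a ∈ F p.1, ∀ b ∈ F p'.1,
      a * p.2 * τ ≠ b * p'.2 ∧ b * p'.2 * τ ≠ a * p.2) ?_
  · obtain ⟨f, hf1, hf2⟩ := key
    have hmono : ∀ n, n ≤ (f n).1 := by
      intro n
      induction n with
      | zero => exact Nat.zero_le _
      | succ n ih =>
        have := (hf2 n (n + 1) (by omega)).1
        omega
    refine ⟨{x | ∃ n, ∃ a ∈ F (f n).1, x = a * (f n).2}, ?_, ?_⟩
    · intro S hS
      choose g hg using he
      obtain ⟨N, hN⟩ := (hS.image g).bddAbove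
      refine ⟨(f N).2, fun x hx => ⟨N, x, ?_, rfl⟩⟩
      apply hF (hmono N)
      rw [Finset.mem_image]
      refine ⟨g x, ?_, hg x⟩
      rw [Finset.mem_range]
      have := hN ⟨x, hx, rfl⟩
      omega
    · rintro x ⟨n, a, ha, rfl⟩ ⟨m, b, hb, hab⟩
      rcases lt_trichotomy n m with h | h | h
      · exact ((hf2 n m h).2 a ha b hb).1 hab
      · subst h
        exact hf1 n a ha b hb hab
      · exact ((hf2 m n h).2 b hb a ha).2 hab
  · intro s _
    set i := s.sup Prod.fst + 1 with hi
    let bad1 : Finset Γ := (F i ×ˢ F i).image (fun q => q.1⁻¹ * q.2)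
    let E : Finset Γ := s.biUnion fun p => ((F p.1 ×ˢ F i).image (fun q => q.2⁻¹ * q.1 * p.2 * τ)) ∪
      ((F p.1 ×ˢ F i).image (fun q => q.2⁻¹ * q.1 * p.2 * τ⁻¹))
    obtain ⟨c, ⟨k, rfl⟩, hc⟩ := hτ.exists_notMem_finset (bad1 ∪ E.image fun k => k * τ * k⁻¹)
    rw [Finset.mem_union, not_or] at hc
    have hk : k ∉ E := fun h => hc.2 (Finset.mem_image_of_mem _ h)
    refine ⟨(i, k), ?_, ?_⟩
    · intro a ha b hb hab
      apply hc.1
      rw [Finset.mem_image]
      refine ⟨(a, b), Finset.mem_product.mpr ⟨ha, hb⟩, ?_⟩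
      simp only at hab ⊢
      rw [inv_mul_eq_iff_eq_mul, ← mul_assoc, ← mul_assoc, hab]
      group
    · intro p hp
      refine ⟨?_, fun a ha b hb => ⟨fun hab => ?_, fun hab => ?_⟩⟩
      · have : p.1 ≤ s.sup Prod.fst := Finset.le_sup (f := Prod.fst) hp
        simp only
        omega
      · apply hk
        rw [Finset.mem_biUnion]
        refine ⟨p, hp, Finset.mem_union_left _ ?_⟩
        rw [Finset.mem_image]
        refine ⟨(a, b), Finset.mem_product.mpr ⟨ha, hb⟩, ?_⟩
        simp only at hab ⊢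
        rw [mul_assoc, mul_assoc, inv_mul_eq_iff_eq_mul, ← mul_assoc, hab]
      · apply hk
        rw [Finset.mem_biUnion]
        refine ⟨p, hp, Finset.mem_union_right _ ?_⟩
        rw [Finset.mem_image]
        refine ⟨(a, b), Finset.mem_product.mpr ⟨ha, hb⟩, ?_⟩
        simp only at hab ⊢
        rw [mul_assoc, mul_assoc, inv_mul_eq_iff_eq_mul, ← mul_assoc, ← hab]
        group

end infinite

section finite

variable {Γ : Type} [Group Γ]

open Subgroup
open scoped commutatorElement

/-- A finitely generated group with finite conjugacy classes has finitely many commutators. -/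
theorem finite_comm (hΓ : FC Γ) {T : Set Γ} (hT : T.Finite) :
    Finite (commutatorSet (closure T)) := by
  classical
  have : Finite T := hT
  let φ : closure T → (T → Γ) := fun g t => g * t * (g : Γ)⁻¹
  have hφ : (Set.range φ).Finite := by
    refine (Set.Finite.pi' (fun t : T => hΓ t)).subset ?_
    rintro _ ⟨g, rfl⟩ t
    exact ⟨g, rfl⟩
  have : Finite (Set.range φ) := hφ
  have hcen : ∀ g g' : closure T, φ g = φ g' → ∀ x : closure T, ⁅g, x⁆ = ⁅g', x⁆ := by
    intro g g' h x
    have h1 : ∀ t ∈ T, (g' : Γ)⁻¹ * g * t = t * ((g' : Γ)⁻¹ * g) := by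
      intro t ht
      have h2 := congrFun h ⟨t, ht⟩
      simp only [φ] at h2
      have h3 : (g : Γ) * t = g' * t * (g' : Γ)⁻¹ * g := by
        rw [← h2]; group
      rw [mul_assoc, h3]
      group
    have h4 : closure T ≤ centralizer {(g' : Γ)⁻¹ * g} := by
      rw [closure_le]
      intro t ht
      rw [SetLike.mem_coe, mem_centralizer_singleton_iff]
      exact (h1 t ht).symm
    have h5 := mem_centralizer_singleton_iff.mp (h4 x.2)
    apply Subtype.ext
    simp only [commutatorElement_def, coe_mul, coe_inv]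
    have h6 : (g : Γ) * x * (g : Γ)⁻¹ = g' * x * (g' : Γ)⁻¹ := by
      have : (g' : Γ)⁻¹ * g * x = x * ((g' : Γ)⁻¹ * g) := h5.symm
      have h7 : (g : Γ) * x = g' * (x * ((g' : Γ)⁻¹ * g)) := by
        rw [← this]; group
      rw [h7]; group
    rw [h6]
  let ρ : Set.range φ → closure T := fun v => v.2.choose
  have hρ : ∀ v : Set.range φ, φ (ρ v) = v := fun v => v.2.choose_spec
  have hsub : commutatorSet (closure T) ⊆
      Set.range (fun p : Set.range φ × Set.range φ => ⁅ρ p.1, ρ p.2⁆) := by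
    rintro c ⟨g, x, rfl⟩
    refine ⟨(⟨φ g, g, rfl⟩, ⟨φ x, x, rfl⟩), ?_⟩
    simp only
    rw [hcen _ g (hρ _) _, ← commutatorElement_inv, hcen _ x (hρ _) _, commutatorElement_inv]
  exact (Set.finite_range _).subset hsub

/-- In a group with finite conjugacy classes the commutators with the elements of a finite set
are contained in a finite subgroup. -/
theorem exists_subgroup (hΓ : FC Γ) {S : Set Γ} (hS : S.Finite) :
    ∃ H : Subgroup Γ, Finite H ∧ ∀ s ∈ S, ∀ h : Γ, s * h * s⁻¹ * h⁻¹ ∈ H := by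
  classical
  have : Finite S := hS
  let Φ : Γ → (S → Γ) := fun h s => h * (s : Γ)⁻¹ * h⁻¹
  have hΦ : (Set.range Φ).Finite := by
    refine (Set.Finite.pi' (fun s : S => hΓ (s : Γ)⁻¹)).subset ?_
    rintro _ ⟨g, rfl⟩ t
    exact ⟨g, rfl⟩
  have : Finite (Set.range Φ) := hΦ
  let H₀ : Set Γ := Set.range (fun v : Set.range Φ => v.2.choose)
  have hH₀ : H₀.Finite := Set.finite_range _
  let T : Set Γ := S ∪ H₀
  have hT : T.Finite := hS.union hH₀
  have := finite_comm hΓ hT
  refine ⟨(commutator (closure T)).map (closure T).subtype, ?_, ?_⟩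
  · have h0 : Finite (commutator (closure T)) := inferInstance
    have h1 : ((commutator (closure T) : Subgroup (closure T)) : Set (closure T)).Finite := h0
    exact h1.image (closure T).subtype
  · intro s hs h
    have h1 : Φ h ∈ Set.range Φ := ⟨h, rfl⟩
    have h2 := h1.choose_spec
    set h' := h1.choose with hh'
    have h3 := congrFun h2 ⟨s, hs⟩
    simp only [Φ] at h3
    have h4 : s * h * s⁻¹ * h⁻¹ = s * h' * s⁻¹ * h'⁻¹ := by
      have : s * h * s⁻¹ * h⁻¹ = s * (h * s⁻¹ * h⁻¹) := by group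
      rw [this, ← h3]
      group
    rw [h4, mem_map]
    have hs' : s ∈ closure T := subset_closure (Or.inl hs)
    have hh : h' ∈ closure T := subset_closure (Or.inr ⟨⟨Φ h, h1⟩, rfl⟩)
    refine ⟨⁅(⟨s, hs'⟩ : closure T), ⟨h', hh⟩⁆, ?_, ?_⟩
    · exact commutator_mem_commutator (mem_top _) (mem_top _)
    · simp [commutatorElement_def]

end finite

end Pool.Agent.Y225.HN
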