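import Mathlib
import Pool.Agent.Y225.HN.Grp

/-!
Left and right Haar null sets in products of countable discrete groups.
-/

set_option autoImplicit false
set_option linter.unusedSectionVars false

open MeasureTheory Filter Topology
open scoped ENNReal

namespace Pool.Agent.Y225.HN

section defs

variable {G : Type} [Group G] [TopologicalSpace G] [MeasurableSpace G]

/-- `A` is left Haar null: there are a Borel set `B ⊇ A` and a Borel probability measure `μ` with
`μ (g B) = 0` for all `g`. -/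
def LeftHaarNull (A : Set G) : Prop :=
  ∃ B : Set G, MeasurableSet B ∧ A ⊆ B ∧ ∃ μ : Measure G, IsProbabilityMeasure μ ∧
    ∀ g : G, μ ((fun x => g * x) '' B) = 0

/-- `A` is right Haar null: there are a Borel set `B ⊇ A` and a Borel probability measure `μ` with
`μ (B g) = 0` for all `g`. -/
def RightHaarNull (A : Set G) : Prop :=
  ∃ B : Set G, MeasurableSet B ∧ A ⊆ B ∧ ∃ μ : Measure G, IsProbabilityMeasure μ ∧
    ∀ g : G, μ ((fun x => x * g) '' B) = 0

variable (G) in
/-- `G` is amenable at 1 (Solecki): for all Borel probability measures `μ n` such that `1` is in the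
support of each `μ n` there are Borel probability measures `ν n ≪ μ n` and `ν₀` such that
`(ν₀ * ν n) (K) → ν₀ (K)` for every compact set `K`. -/
def AmenableAtOne : Prop :=
  ∀ μ : ℕ → Measure G, (∀ n, IsProbabilityMeasure (μ n)) →
    (∀ n, ∀ U ∈ 𝓝 (1 : G), 0 < μ n U) →
    ∃ (ν : ℕ → Measure G) (ν₀ : Measure G), (∀ n, IsProbabilityMeasure (ν n)) ∧
      IsProbabilityMeasure ν₀ ∧ (∀ n, ν n ≪ μ n) ∧
      ∀ K : Set G, IsCompact K →
        Tendsto (fun n => (ν₀.prod (ν n)) {p : G × G | p.1 * p.2 ∈ K}) atTop (𝓝 (ν₀ K))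

end defs

variable {Γ : ℕ → Type} [∀ n, Group (Γ n)] [∀ n, Countable (Γ n)] [∀ n, TopologicalSpace (Γ n)]
  [∀ n, DiscreteTopology (Γ n)] [∀ n, MeasurableSpace (Γ n)] [∀ n, BorelSpace (Γ n)]

instance polish : PolishSpace (∀ n, Γ n) := inferInstance

/-- Compact sets have finite projections. -/
theorem finite_proj {K : Set (∀ n, Γ n)} (hK : IsCompact K) (n : ℕ) :
    ((fun x : ∀ n, Γ n => x n) '' K).Finite :=
  (hK.image (continuous_apply n)).finite_of_discrete

theorem exists_compact (μ : Measure (∀ n, Γ n)) [IsFiniteMeasure μ] {U : Set (∀ n, Γ n)}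
    (hU : MeasurableSet U) (hpos : 0 < μ U) : ∃ K, K ⊆ U ∧ IsCompact K ∧ IsClosed K ∧ 0 < μ K := by
  have hreg := innerRegular_isCompact_isClosed_measurableSet_of_finite μ
  obtain ⟨K, hKU, ⟨hK, hK'⟩, hp⟩ := hreg hU 0 hpos
  exact ⟨K, hKU, hK, hK', hp⟩

section negative

variable (I : Set ℕ) (A₀ : ∀ n, Set (Γ n)) (τ : ∀ n, Γ n)

/-- The set. -/
def AA : Set (∀ n, Γ n) := {x | ∀ n ∈ I, x n ∈ A₀ n}

theorem isClosed_AA : IsClosed (AA I A₀) := by
  have : AA I A₀ = ⋂ n ∈ I, (fun x : ∀ n, Γ n => x n) ⁻¹' A₀ n := by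
    ext x; simp [AA]
  rw [this]
  exact isClosed_biInter fun n _ => (isClosed_discrete _).preimage (continuous_apply n)

open Classical in
/-- The compact set of the points with all coordinates in `{1, τ}`. -/
noncomputable def cantor (idx : ℕ → ℕ) (c : ℕ → Bool) : ∀ n, Γ n :=
  fun n => if c (idx n) then τ n else 1

theorem continuous_cantor (idx : ℕ → ℕ) : Continuous (cantor τ idx) :=
  continuous_pi fun n => (continuous_of_discreteTopology (f := fun b : Bool =>
    if b then τ n else (1 : Γ n))).comp (continuous_apply (idx n))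

theorem subsingleton_translate {idx : ℕ → ℕ} (hidx : ∀ m, ∃ n ∈ I, idx n = m)
    (h : ∀ n ∈ I, ∀ x ∈ A₀ n, x * τ n ∉ A₀ n) (g : ∀ n, Γ n) :
    {c : ℕ → Bool | cantor τ idx c ∈ (fun x => g * x) '' AA I A₀}.Subsingleton := by
  have key : ∀ c d : ℕ → Bool, cantor τ idx c ∈ (fun x => g * x) '' AA I A₀ →
      cantor τ idx d ∈ (fun x => g * x) '' AA I A₀ → ∀ m, c m = true → d m = true := by
    rintro c d ⟨x, hx, hxc⟩ ⟨y, hy, hyd⟩ m hc
    by_contra hd
    obtain ⟨n, hn, rfl⟩ := hidx m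
    have h1 := congrFun hxc n
    have h2 := congrFun hyd n
    simp only [cantor, Pi.mul_apply, hc, hd, if_true] at h1 h2
    have h3 : g n * x n = g n * (y n * τ n) := by
      rw [h1, ← mul_assoc, h2]
      simp
    have h4 := mul_left_cancel h3
    have h5 := h n hn (y n) (hy n hn)
    rw [← h4] at h5
    exact h5 (hx n hn)
  intro c hc d hd
  funext n
  rw [Bool.eq_iff_iff]
  exact ⟨key c d hc hd n, key d c hd hc n⟩

theorem leftHaarNull_AA (hI : I.Infinite) (h : ∀ n ∈ I, ∀ x ∈ A₀ n, x * τ n ∉ A₀ n) :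
    LeftHaarNull (AA I A₀) := by
  have : Infinite I := hI.to_subtype
  obtain ⟨idx, hidx⟩ : ∃ idx : ℕ → ℕ, ∀ m, ∃ n ∈ I, idx n = m := by
    let e : ℕ ↪ I := Infinite.natEmbedding I
    have he : Function.Injective (fun m => (e m : ℕ)) := fun a b hab =>
      e.injective (Subtype.ext hab)
    exact ⟨Function.invFun (fun m => (e m : ℕ)), fun m => ⟨e m, (e m).2,
      Function.leftInverse_invFun he m⟩⟩
  refine ⟨AA I A₀, (isClosed_AA I A₀).measurableSet, subset_rfl, ?_⟩
  have h1 : ¬ Countable ℝ := by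
    rw [not_countable_iff]; infer_instance
  let E : ℝ ≃ᵐ (ℕ → Bool) := PolishSpace.measurableEquivNatBoolOfNotCountable h1
  let lam : Measure ℝ := volume.restrict (Set.Icc 0 1)
  have hlam : IsProbabilityMeasure lam := ⟨by simp [lam]⟩
  have hmeas : Measurable fun r => cantor τ idx (E r) :=
    (continuous_cantor τ idx).measurable.comp E.measurable
  refine ⟨lam.map fun r => cantor τ idx (E r), Measure.isProbabilityMeasure_map hmeas.aemeasurable,
    fun g => ?_⟩
  have hm : MeasurableSet ((fun x => g * x) '' AA I A₀) := by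
    have : (fun x => g * x) '' AA I A₀ = Homeomorph.mulLeft g '' AA I A₀ := rfl
    rw [this]
    exact ((Homeomorph.mulLeft g).isClosed_image.2 (isClosed_AA I A₀)).measurableSet
  rw [Measure.map_apply hmeas hm]
  have hs : ((fun r => cantor τ idx (E r)) ⁻¹' ((fun x => g * x) '' AA I A₀)).Subsingleton := by
    intro r hr s hs
    exact E.injective (subsingleton_translate I A₀ τ hidx h g hr hs)
  exact hs.measure_zero lam

theorem not_rightHaarNull_AA (h : ∀ n ∈ I, ∀ S : Set (Γ n), S.Finite → ∃ k, ∀ x ∈ S, x * k ∈ A₀ n) :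
    ¬ RightHaarNull (AA I A₀) := by
  rintro ⟨B, hB, hAB, μ, hμ, h0⟩
  obtain ⟨K, -, hK, -, hpos⟩ := exists_compact μ MeasurableSet.univ (by simp)
  have hk : ∀ n, ∃ k : Γ n, n ∈ I → ∀ x ∈ (fun x : ∀ n, Γ n => x n) '' K, x * k ∈ A₀ n := by
    intro n
    by_cases hn : n ∈ I
    · obtain ⟨k, hk⟩ := h n hn _ (finite_proj hK n)
      exact ⟨k, fun _ => hk⟩
    · exact ⟨1, fun h => absurd h hn⟩
  choose k hk using hk
  have hsub : K ⊆ (fun x => x * (fun n => (k n)⁻¹ : ∀ n, Γ n)) '' B := by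
    intro x hx
    refine ⟨x * k, hAB fun n hn => hk n hn (x n) ⟨x, hx, rfl⟩, ?_⟩
    funext n
    simp
  have := measure_mono (μ := μ) hsub
  rw [h0] at this
  exact absurd (nonpos_iff_eq_zero.1 this) hpos.ne'

end negative

/-- Infinitely many factors with an infinite conjugacy class. -/
theorem differ (h : {n | ¬ FC (Γ n)}.Infinite) :
    ∃ A : Set (∀ n, Γ n), IsClosed A ∧ LeftHaarNull A ∧ ¬ RightHaarNull A := by
  have key : ∀ n, ∃ (A₀ : Set (Γ n)) (τ : Γ n), n ∈ {n | ¬ FC (Γ n)} →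
      (∀ S : Set (Γ n), S.Finite → ∃ k, ∀ x ∈ S, x * k ∈ A₀) ∧ ∀ x ∈ A₀, x * τ ∉ A₀ := by
    intro n
    by_cases hn : FC (Γ n)
    · exact ⟨∅, 1, fun h => absurd hn h⟩
    · have hn' := hn
      unfold FC at hn'
      push Not at hn'
      obtain ⟨τ, hτ⟩ := hn'
      obtain ⟨A₀, h1, h2⟩ := exists_translates hτ
      exact ⟨A₀, τ, fun _ => ⟨h1, h2⟩⟩
  choose A₀ τ hA using key
  exact ⟨AA _ A₀, isClosed_AA _ A₀, leftHaarNull_AA _ A₀ τ h fun n hn => (hA n hn).2,
    not_rightHaarNull_AA _ A₀ fun n hn => (hA n hn).1⟩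

end Pool.Agent.Y225.HN
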