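import Mathlib
import Pool.Agent.Y225.HN.Neg

/-!
In products of countable groups, almost all with finite conjugacy classes, the left and the right
Haar null sets coincide.
-/

set_option autoImplicit false
set_option linter.unusedSectionVars false

open MeasureTheory Filter Topology
open scoped ENNReal

namespace Pool.Agent.Y225.HN

section unif

variable {Δ : Type} [TopologicalSpace Δ] [DiscreteTopology Δ] [MeasurableSpace Δ] [BorelSpace Δ]

/-- the uniform measure on a finite set -/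
noncomputable def unif (F : Finset Δ) : Measure Δ :=
  (F.card : ℝ≥0∞)⁻¹ • ∑ a ∈ F, Measure.dirac a

lemma meas_discrete (s : Set Δ) : MeasurableSet s := (isOpen_discrete s).measurableSet

lemma measurable_discrete {β : Type} [MeasurableSpace β] (f : Δ → β) : Measurable f :=
  fun _ _ => meas_discrete _

open Classical in
lemma unif_apply (F : Finset Δ) (s : Set Δ) :
    unif F s = (F.card : ℝ≥0∞)⁻¹ * ((F.filter (· ∈ s)).card : ℝ≥0∞) := by
  unfold unif
  rw [Measure.smul_apply, smul_eq_mul, Measure.finsetSum_apply]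
  congr 1
  rw [Finset.card_filter]
  push_cast
  apply Finset.sum_congr rfl
  intro a _
  rw [Measure.dirac_apply' a (meas_discrete s)]
  by_cases h : a ∈ s <;> simp [h]

lemma unif_prob {F : Finset Δ} (hF : F.Nonempty) : IsProbabilityMeasure (unif F) := by
  classical
  constructor
  rw [unif_apply]
  simp only [Set.mem_univ, Finset.filter_true]
  exact ENNReal.inv_mul_cancel (by simpa using hF.ne_empty) (ENNReal.natCast_ne_top _)

lemma unif_map {F : Finset Δ} {f : Δ → Δ} (hf : Set.BijOn f F F) : (unif F).map f = unif F := by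
  classical
  ext s hs
  rw [Measure.map_apply (measurable_discrete f) hs, unif_apply, unif_apply]
  congr 2
  apply Finset.card_bij (fun a _ => f a)
  · intro a ha
    rw [Finset.mem_filter] at ha ⊢
    exact ⟨hf.mapsTo ha.1, ha.2⟩
  · intro a ha b hb hab
    rw [Finset.mem_filter] at ha hb
    exact hf.injOn ha.1 hb.1 hab
  · intro b hb
    rw [Finset.mem_filter] at hb
    obtain ⟨a, ha, rfl⟩ := hf.surjOn hb.1
    exact ⟨a, Finset.mem_filter.mpr ⟨ha, hb.2⟩, rfl⟩

end unif

variable {Γ : ℕ → Type} [∀ n, Group (Γ n)] [∀ n, Countable (Γ n)] [∀ n, TopologicalSpace (Γ n)]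
  [∀ n, DiscreteTopology (Γ n)] [∀ n, MeasurableSpace (Γ n)] [∀ n, BorelSpace (Γ n)]

lemma inf_map {F : ∀ n, Finset (Γ n)} (hF : ∀ n, (F n).Nonempty) {ψ : ∀ n, Γ n → Γ n}
    (hψ : ∀ n, Set.BijOn (ψ n) (F n) (F n)) :
    (Measure.infinitePi (fun n => unif (F n))).map (fun x n => ψ n (x n)) =
      Measure.infinitePi (fun n => unif (F n)) := by
  have : ∀ n, IsProbabilityMeasure (unif (F n)) := fun n => unif_prob (hF n)
  rw [Measure.infinitePi_map_pi _ (fun n => measurable_discrete (ψ n))]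
  congr 1
  funext n
  exact unif_map (hψ n)

/-- A probability measure which is right invariant under a product of finite subgroups. -/
theorem exists_invariant (H : ∀ n, Subgroup (Γ n)) (hH : ∀ n, Finite (H n)) :
    ∃ ν : Measure (∀ n, Γ n), IsProbabilityMeasure ν ∧
    ∀ y : ∀ n, Γ n, (∀ n, y n ∈ H n) → ∀ K : Set (∀ n, Γ n), MeasurableSet K →
      ν {x | x * y ∈ K} = ν K := by
  classical
  have hfin : ∀ n, ((H n : Subgroup (Γ n)) : Set (Γ n)).Finite := fun n => hH n
  let F : ∀ n, Finset (Γ n) := fun n => (hfin n).toFinset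
  have hFm : ∀ n x, x ∈ F n ↔ x ∈ H n := fun n x => by
    simp only [F, Set.Finite.mem_toFinset, SetLike.mem_coe]
  have hF : ∀ n, (F n).Nonempty := fun n => ⟨1, (hFm n 1).mpr (one_mem _)⟩
  have hprob : ∀ n, IsProbabilityMeasure (unif (F n)) := fun n => unif_prob (hF n)
  refine ⟨Measure.infinitePi (fun n => unif (F n)), inferInstance, fun y hy K hK => ?_⟩
  have h1 : ∀ n, Set.BijOn (fun x => x * y n) (F n : Set (Γ n)) (F n) := by
    intro n
    refine ⟨fun x hx => ?_, fun a _ b _ hab => mul_right_cancel hab, fun x hx => ?_⟩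
    · rw [Finset.mem_coe, hFm] at hx ⊢
      exact mul_mem hx (hy n)
    · rw [Finset.mem_coe, hFm] at hx
      refine ⟨x * (y n)⁻¹, ?_, by simp⟩
      rw [Finset.mem_coe, hFm]
      exact mul_mem hx (inv_mem (hy n))
  have h2 := inf_map hF h1
  have h3 : Measurable (fun (x : ∀ n, Γ n) n => x n * y n) :=
    (continuous_mul_const y).measurable
  calc Measure.infinitePi (fun n => unif (F n)) {x | x * y ∈ K}
      = ((Measure.infinitePi (fun n => unif (F n))).map (fun x n => x n * y n)) K := by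
        rw [Measure.map_apply h3 hK]
        rfl
    _ = _ := by rw [h2]

/-- A witness with small support. -/
theorem exists_witness {B : Set (∀ n, Γ n)} (hB : MeasurableSet B) (μ : Measure (∀ n, Γ n))
    [IsProbabilityMeasure μ] (hμ : ∀ g : ∀ n, Γ n, μ ((fun x => g * x) '' B) = 0) (N : ℕ) :
    ∃ (μ' : Measure (∀ n, Γ n)) (K : Set (∀ n, Γ n)), IsProbabilityMeasure μ' ∧ IsCompact K ∧
      (∀ᵐ s ∂μ', s ∈ K) ∧ (∀ s ∈ K, ∀ n < N, s n = 1) ∧
      ∀ g : ∀ n, Γ n, μ' ((fun x => g * x) '' B) = 0 := by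
  obtain ⟨d, hd⟩ : ∃ d : ∀ i : Fin N, Γ i, μ {x | ∀ i : Fin N, x i = d i} ≠ 0 := by
    by_contra hc
    push Not at hc
    have h1 : (⋃ d : ∀ i : Fin N, Γ i, {x : ∀ n, Γ n | ∀ i : Fin N, x i = d i}) = Set.univ := by
      ext x
      simp only [Set.mem_iUnion, Set.mem_univ, iff_true]
      exact ⟨fun i => x i, fun i => rfl⟩
    have h2 := measure_iUnion_null (μ := μ) hc
    rw [h1, measure_univ] at h2
    exact one_ne_zero h2
  have hUo : IsOpen {x : ∀ n, Γ n | ∀ i : Fin N, x i = d i} := by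
    have : {x : ∀ n, Γ n | ∀ i : Fin N, x i = d i} =
        ⋂ i : Fin N, (fun x : ∀ n, Γ n => x i) ⁻¹' {d i} := by
      ext x; simp
    rw [this]
    exact isOpen_iInter_of_finite fun i => (isOpen_discrete _).preimage (continuous_apply _)
  obtain ⟨K, hKU, hK, hKc, hpos⟩ := exists_compact μ hUo.measurableSet (pos_iff_ne_zero.mpr hd)
  let h : ∀ n, Γ n := fun n => if hn : n < N then d ⟨n, hn⟩ else 1
  have hmul : Measurable (fun x : ∀ n, Γ n => h⁻¹ * x) := (continuous_const_mul _).measurable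
  have hprob : IsProbabilityMeasure ((μ K)⁻¹ • μ.restrict K) := ⟨by
    rw [Measure.smul_apply, Measure.restrict_apply_univ, smul_eq_mul]
    exact ENNReal.inv_mul_cancel hpos.ne' (measure_ne_top _ _)⟩
  refine ⟨((μ K)⁻¹ • μ.restrict K).map (fun x => h⁻¹ * x), (fun x => h⁻¹ * x) '' K,
    Measure.isProbabilityMeasure_map hmul.aemeasurable, hK.image (continuous_const_mul _),
    ?_, ?_, fun g => ?_⟩
  · have hm : MeasurableSet ((fun x => h⁻¹ * x) '' K) :=
      (hK.image (continuous_const_mul _)).measurableSet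
    refine (ae_map_iff (p := fun s => s ∈ (fun x => h⁻¹ * x) '' K) hmul.aemeasurable hm).mpr ?_
    refine Measure.smul_absolutelyContinuous.ae_le ?_
    filter_upwards [ae_restrict_mem hKc.measurableSet] with x hx
    exact ⟨x, hx, rfl⟩
  · rintro _ ⟨x, hx, rfl⟩ n hn
    have h1 := hKU hx ⟨n, hn⟩
    simp only at h1
    simp only [Pi.mul_apply, Pi.inv_apply, h, dif_pos hn, h1, inv_mul_cancel]
  · have hm : MeasurableSet ((fun x => g * x) '' B) := by
      have : (fun x => g * x) '' B = (fun x => g⁻¹ * x) ⁻¹' B := by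
        ext x
        constructor
        · rintro ⟨y, hy, rfl⟩
          simpa using hy
        · intro hx
          exact ⟨g⁻¹ * x, hx, by simp⟩
      rw [this]
      exact (continuous_const_mul _).measurable hB
    rw [Measure.map_apply hmul hm, Measure.smul_apply, smul_eq_mul]
    have h2 : (fun x => h⁻¹ * x) ⁻¹' ((fun x => g * x) '' B) = (fun x => (h * g) * x) '' B := by
      ext x
      constructor
      · rintro ⟨y, hy, hyx⟩
        refine ⟨y, hy, ?_⟩
        simp only at hyx ⊢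
        rw [mul_assoc, hyx]
        simp
      · rintro ⟨y, hy, rfl⟩
        refine ⟨y, hy, ?_⟩
        simp [mul_assoc]
    have h3 : μ.restrict K ((fun x => h⁻¹ * x) ⁻¹' ((fun x => g * x) '' B)) = 0 := by
      rw [h2]
      exact nonpos_iff_eq_zero.mp ((Measure.restrict_apply_le _ _).trans (hμ _).le)
    rw [h3, mul_zero]

theorem left_to_right (hfin : {n | ¬ FC (Γ n)}.Finite) {A : Set (∀ n, Γ n)}
    (hA : LeftHaarNull A) : RightHaarNull A := by
  obtain ⟨B, hB, hAB, μ, hμ, h0⟩ := hA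
  obtain ⟨N, hN⟩ := hfin.bddAbove
  obtain ⟨μ', K, hμ', hK, hae, hK1, h0'⟩ := exists_witness hB μ h0 (N + 1)
  have hH : ∀ n, ∃ H : Subgroup (Γ n), Finite H ∧
      ∀ s ∈ (fun x : ∀ n, Γ n => x n) '' K, ∀ h : Γ n, s * h * s⁻¹ * h⁻¹ ∈ H := by
    intro n
    rcases Nat.lt_or_ge n (N + 1) with hn | hn
    · refine ⟨⊥, inferInstance, ?_⟩
      rintro _ ⟨x, hx, rfl⟩ h
      simp [hK1 x hx n hn]
    · have hFC : FC (Γ n) := by
        by_contra hc
        have := hN hc
        omega
      exact exists_subgroup hFC (finite_proj hK n)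
  choose H hH1 hH2 using hH
  obtain ⟨lam, hlam, hinv⟩ := exists_invariant H hH1
  have hmul : Measurable (fun p : (∀ n, Γ n) × (∀ n, Γ n) => p.1 * p.2) := continuous_mul.measurable
  refine ⟨B, hB, hAB, (lam.prod μ').map (fun p => p.1 * p.2),
    Measure.isProbabilityMeasure_map hmul.aemeasurable, fun g => ?_⟩
  have him : (fun x => x * g) '' B = (fun x => x * g⁻¹) ⁻¹' B := by
    ext x
    constructor
    · rintro ⟨y, hy, rfl⟩
      simpa using hy
    · intro hx
      exact ⟨x * g⁻¹, hx, by simp⟩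
  have hmB : MeasurableSet ((fun x => x * g) '' B) := by
    rw [him]
    exact (continuous_mul_const _).measurable hB
  rw [Measure.map_apply hmul hmB, Measure.prod_apply_symm (hmul hmB)]
  have hm2 : Measurable (fun p : (∀ n, Γ n) × (∀ n, Γ n) => p.1 * g⁻¹ * p.2) :=
    ((continuous_fst.mul continuous_const).mul continuous_snd).measurable
  have e1 : ∀ᵐ s ∂μ', lam ((fun c => (c, s)) ⁻¹' ((fun p : (∀ n, Γ n) × (∀ n, Γ n) => p.1 * p.2) ⁻¹'
      ((fun x => x * g) '' B))) = lam ((fun c => (c, s)) ⁻¹'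
        ((fun p : (∀ n, Γ n) × (∀ n, Γ n) => p.1 * g⁻¹ * p.2) ⁻¹' B)) := by
    filter_upwards [hae] with s hs
    have h1 := hinv (s * g⁻¹ * s⁻¹ * g) (fun n => by
      have := hH2 n (s n) ⟨s, hs, rfl⟩ (g n)⁻¹
      rw [inv_inv] at this
      exact this) {c | c * g⁻¹ * s ∈ B} (by
        have : Measurable (fun c : ∀ n, Γ n => c * g⁻¹ * s) :=
          ((continuous_id.mul continuous_const).mul continuous_const).measurable
        exact this hB)
    have h2 : (fun c => (c, s)) ⁻¹' ((fun p : (∀ n, Γ n) × (∀ n, Γ n) => p.1 * p.2) ⁻¹'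
        ((fun x => x * g) '' B)) = {x | x * (s * g⁻¹ * s⁻¹ * g) ∈ {c | c * g⁻¹ * s ∈ B}} := by
      rw [him]
      ext c
      simp only [Set.mem_preimage, Set.mem_ofPred_eq]
      have : c * (s * g⁻¹ * s⁻¹ * g) * g⁻¹ * s = c * s * g⁻¹ := by group
      rw [this]
    rw [h2, h1]
    rfl
  rw [lintegral_congr_ae e1, ← Measure.prod_apply_symm (hm2 hB), Measure.prod_apply (hm2 hB)]
  have e2 : ∀ c : ∀ n, Γ n, μ' (Prod.mk c ⁻¹'
      ((fun p : (∀ n, Γ n) × (∀ n, Γ n) => p.1 * g⁻¹ * p.2) ⁻¹' B)) = 0 := by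
    intro c
    have h1 := h0' (c * g⁻¹)⁻¹
    have h2 : (fun x => (c * g⁻¹)⁻¹ * x) '' B = Prod.mk c ⁻¹'
        ((fun p : (∀ n, Γ n) × (∀ n, Γ n) => p.1 * g⁻¹ * p.2) ⁻¹' B) := by
      ext x
      constructor
      · rintro ⟨y, hy, rfl⟩
        simp only [Set.mem_preimage]
        rw [mul_inv_cancel_left]
        exact hy
      · intro hx
        simp only [Set.mem_preimage] at hx
        exact ⟨c * g⁻¹ * x, hx, inv_mul_cancel_left _ _⟩
    rw [← h2]
    exact h1
  simp only [e2, lintegral_zero]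

/-- inversion exchanges left and right Haar null sets -/
theorem left_of_right {A : Set (∀ n, Γ n)} (hA : RightHaarNull A) :
    LeftHaarNull ((fun x => x⁻¹) ⁻¹' A) := by
  obtain ⟨B, hB, hAB, μ, hμ, h0⟩ := hA
  have hinv : Measurable (fun x : ∀ n, Γ n => x⁻¹) := continuous_inv.measurable
  refine ⟨(fun x => x⁻¹) ⁻¹' B, hinv hB, Set.preimage_mono hAB, μ.map (fun x => x⁻¹),
    Measure.isProbabilityMeasure_map hinv.aemeasurable, fun g => ?_⟩
  have h1 : (fun x => g * x) '' ((fun x => x⁻¹) ⁻¹' B) = (fun x => (g⁻¹ * x)⁻¹) ⁻¹' B := by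
    ext x
    constructor
    · rintro ⟨y, hy, rfl⟩
      simpa using hy
    · intro hx
      exact ⟨g⁻¹ * x, hx, by simp⟩
  have h2 : Measurable (fun x : ∀ n, Γ n => (g⁻¹ * x)⁻¹) :=
    (continuous_inv.comp (continuous_const_mul _)).measurable
  rw [h1, Measure.map_apply hinv (h2 hB)]
  rw [← h0 g⁻¹]
  congr 1
  ext x
  constructor
  · intro hx
    simp only [Set.mem_preimage, mul_inv_rev, inv_inv] at hx
    exact ⟨x * g, hx, by simp⟩
  · rintro ⟨y, hy, rfl⟩
    simpa using hy

theorem coincide (hfin : {n | ¬ FC (Γ n)}.Finite) (A : Set (∀ n, Γ n)) :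
    LeftHaarNull A ↔ RightHaarNull A := by
  refine ⟨left_to_right hfin, fun h => ?_⟩
  have h1 := left_of_right (left_to_right hfin (left_of_right h))
  have h2 : (fun x : ∀ n, Γ n => x⁻¹) ⁻¹' ((fun x => x⁻¹) ⁻¹' A) = A := by
    ext x; simp
  rw [h2] at h1
  exact h1

end Pool.Agent.Y225.HN
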