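import Mathlib
import Pool.Agent.Y225.HN.Pos

/-!
Countable products of countable amenable groups are amenable at 1.
-/

set_option autoImplicit false
set_option linter.unusedSectionVars false

open MeasureTheory Filter Topology
open scoped ENNReal

namespace Pool.Agent.Y225.HN

/-- The condition of Følner (amenability of a discrete group). -/
def Folner (Γ : Type) [Group Γ] : Prop :=
  ∀ (S : Set Γ) (ε : ℝ), S.Finite → 0 < ε → ∃ F : Finset Γ, F.Nonempty ∧
    ∀ s ∈ S, (({a : Γ | a ∈ F ∧ a * s ∉ F}.ncard : ℕ) : ℝ) ≤ ε * F.card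

section perm

variable {Δ : Type} [Group Δ]

lemma exists_perm (F : Finset Δ) (y : Δ) : ∃ ψ : Δ → Δ, Set.BijOn ψ F F ∧
    ∀ a ∈ F, a * y ∈ F → ψ a = a * y := by
  classical
  obtain ⟨g, hg⟩ := Finset.exists_equiv_extend_of_card_eq (α := F) (t := F) (by simp)
    (s := Finset.univ.filter (fun x : F => (x : Δ) * y ∈ F)) (f := fun x : F => (x : Δ) * y)
    (by
      intro z hz
      rw [Finset.mem_image] at hz
      obtain ⟨x, hx, rfl⟩ := hz
      exact (Finset.mem_filter.mp hx).2)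
    (by
      intro a _ b _ hab
      exact Subtype.ext (mul_right_cancel hab))
  have hψ : ∀ a (h : a ∈ F), (fun a => if h : a ∈ F then ((g ⟨a, h⟩ : F) : Δ) else a) a = g ⟨a, h⟩ :=
    fun a h => by simp only [dif_pos h]
  refine ⟨fun a => if h : a ∈ F then ((g ⟨a, h⟩ : F) : Δ) else a, ⟨?_, ?_, ?_⟩, ?_⟩
  · intro a ha
    rw [hψ a ha]
    exact (g ⟨a, ha⟩).2
  · intro a ha b hb hab
    rw [hψ a ha, hψ b hb] at hab
    have := g.injective (Subtype.ext hab)
    simpa using this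
  · intro b hb
    refine ⟨(g.symm ⟨b, hb⟩ : F), (g.symm ⟨b, hb⟩).2, ?_⟩
    rw [hψ _ (g.symm ⟨b, hb⟩).2]
    simp
  · intro a ha hay
    rw [hψ a ha]
    exact hg ⟨a, ha⟩ (Finset.mem_filter.mpr ⟨Finset.mem_univ _, hay⟩)

variable [TopologicalSpace Δ] [DiscreteTopology Δ] [MeasurableSpace Δ] [BorelSpace Δ]

lemma unif_le (F : Finset Δ) (s : Set Δ) (c : ℝ≥0∞) (h : ∀ T : Finset Δ,
    (∀ a ∈ T, a ∈ F ∧ a ∈ s) → (F.card : ℝ≥0∞)⁻¹ * (T.card : ℝ≥0∞) ≤ c) : unif F s ≤ c := by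
  classical
  rw [unif_apply]
  exact h _ (fun a ha => Finset.mem_filter.mp ha)

lemma unif_bad {F : Finset Δ} {y : Δ} {ψ : Δ → Δ} (hψ : ∀ a ∈ F, a * y ∈ F → ψ a = a * y)
    {ε : ℝ} (hε : 0 ≤ ε) (hF : F.Nonempty)
    (h : (({a : Δ | a ∈ F ∧ a * y ∉ F}.ncard : ℕ) : ℝ) ≤ ε * F.card) :
    unif F {a | ψ a ≠ a * y} ≤ ENNReal.ofReal ε := by
  classical
  have hc : (0 : ℝ) < F.card := by exact_mod_cast hF.card_pos
  have hc' : (F.card : ℝ≥0∞) ≠ 0 := by
    have := hF.card_pos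
    exact_mod_cast this.ne'
  have key : ∀ T : Finset Δ, (∀ a ∈ T, a ∈ F ∧ ψ a ≠ a * y) →
      (F.card : ℝ≥0∞)⁻¹ * (T.card : ℝ≥0∞) ≤ ENNReal.ofReal ε := by
    intro T hT
    have h1 : (T.card : ℝ) ≤ ε * F.card := by
      refine le_trans ?_ h
      have h2 : T ⊆ F.filter (fun a => a * y ∉ F) := by
        intro a ha
        rw [Finset.mem_filter]
        exact ⟨(hT a ha).1, fun h3 => (hT a ha).2 (hψ a (hT a ha).1 h3)⟩
      have h3 : {a : Δ | a ∈ F ∧ a * y ∉ F} = (F.filter (fun a => a * y ∉ F) : Finset Δ) := by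
        ext a; simp
      rw [h3, Set.ncard_coe_finset]
      exact_mod_cast Finset.card_le_card h2
    have h4 : (T.card : ℝ≥0∞) ≤ ENNReal.ofReal ε * (F.card : ℝ≥0∞) := by
      rw [← ENNReal.ofReal_natCast, ← ENNReal.ofReal_natCast, ← ENNReal.ofReal_mul hε]
      exact ENNReal.ofReal_le_ofReal h1
    calc (F.card : ℝ≥0∞)⁻¹ * (T.card : ℝ≥0∞)
        ≤ (F.card : ℝ≥0∞)⁻¹ * (ENNReal.ofReal ε * (F.card : ℝ≥0∞)) := by gcongr
      _ = ENNReal.ofReal ε := by
        rw [mul_comm (ENNReal.ofReal ε), ← mul_assoc,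
          ENNReal.inv_mul_cancel hc' (ENNReal.natCast_ne_top _), one_mul]
  exact unif_le F _ _ key

end perm

variable {Γ : ℕ → Type} [∀ n, Group (Γ n)] [∀ n, Countable (Γ n)] [∀ n, TopologicalSpace (Γ n)]
  [∀ n, DiscreteTopology (Γ n)] [∀ n, MeasurableSpace (Γ n)] [∀ n, BorelSpace (Γ n)]

/-- A probability measure which is almost right invariant. -/
theorem exists_almost (hΓ : ∀ n, Folner (Γ n)) (S : ∀ k, Set (Γ k)) (hS : ∀ k, (S k).Finite) :
    ∃ ν : Measure (∀ n, Γ n), IsProbabilityMeasure ν ∧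
    ∀ (n : ℕ) (y : ∀ k, Γ k), (∀ k < n, y k = 1) → (∀ k, n ≤ k → y k ∈ S k) →
      ∀ C : Set (∀ n, Γ n), MeasurableSet C →
        ν {x | x * y ∈ C} ≤ ν C + (1 / 2) ^ n * 2 ∧ ν C ≤ ν {x | x * y ∈ C} + (1 / 2) ^ n * 2 := by
  classical
  choose F hF hFS using fun k => hΓ k (S k) ((1 / 4 : ℝ) ^ k) (hS k) (by positivity)
  have hprob : ∀ n, IsProbabilityMeasure (unif (F n)) := fun n => unif_prob (hF n)
  set ν := Measure.infinitePi (fun n => unif (F n)) with hν
  refine ⟨ν, inferInstance, fun n y hy1 hyS C hC => ?_⟩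
  choose ψ hψ1 hψ2 using fun k => exists_perm (F k) (y k)
  let Ψ : (∀ k, Γ k) → (∀ k, Γ k) := fun x k => ψ k (x k)
  have hΨm : Measurable Ψ := measurable_pi_lambda _ fun k =>
    (measurable_discrete (ψ k)).comp (measurable_pi_apply k)
  have hinv : ν {x | Ψ x ∈ C} = ν C := by
    have h1 := inf_map hF hψ1
    calc ν {x | Ψ x ∈ C} = (ν.map Ψ) C := by rw [Measure.map_apply hΨm hC]; rfl
      _ = ν C := by rw [hν]; rw [h1]
  let Z : Set (∀ k, Γ k) := ⋃ k, (fun x : ∀ k, Γ k => x k) ⁻¹' {a | ψ k a ≠ a * y k}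
  have hZ : ν Z ≤ (1 / 2) ^ n * 2 := by
    have h1 : ∀ k, ν ((fun x : ∀ k, Γ k => x k) ⁻¹' {a | ψ k a ≠ a * y k}) =
        unif (F k) {a | ψ k a ≠ a * y k} := by
      intro k
      have h2 := (measurePreserving_eval_infinitePi (μ := fun n => unif (F n)) k)
      rw [← h2.map_eq, Measure.map_apply (measurable_pi_apply k) (meas_discrete _)]
    have h2 : ∀ k, ν ((fun x : ∀ k, Γ k => x k) ⁻¹' {a | ψ k a ≠ a * y k}) ≤
        (1 / 2) ^ n * (1 / 2) ^ k := by
      intro k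
      rw [h1 k]
      rcases Nat.lt_or_ge k n with hk | hk
      · have h3 : (({a : Γ k | a ∈ F k ∧ a * y k ∉ F k}.ncard : ℕ) : ℝ) ≤ 0 * (F k).card := by
          have : {a : Γ k | a ∈ F k ∧ a * y k ∉ F k} = ∅ := by
            ext a
            simp [hy1 k hk]
          rw [this]
          simp
        refine (unif_bad (hψ2 k) le_rfl (hF k) h3).trans ?_
        simp
      · refine (unif_bad (hψ2 k) (by positivity) (hF k) (hFS k _ (hyS k hk))).trans ?_
        have h3 : (1 / 4 : ℝ) ^ k ≤ (1 / 2) ^ n * (1 / 2) ^ k := by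
          have h4 : (1 / 4 : ℝ) ^ k = (1 / 2) ^ k * (1 / 2) ^ k := by
            rw [← mul_pow]; norm_num
          rw [h4]
          exact mul_le_mul_of_nonneg_right (pow_le_pow_of_le_one (by norm_num) (by norm_num) hk)
            (by positivity)
        refine (ENNReal.ofReal_le_ofReal h3).trans (le_of_eq ?_)
        rw [ENNReal.ofReal_mul (by positivity), ENNReal.ofReal_pow (by norm_num),
          ENNReal.ofReal_pow (by norm_num)]
        have : ENNReal.ofReal (1 / 2) = 1 / 2 := by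
          rw [ENNReal.ofReal_div_of_pos (by norm_num)]
          simp
        rw [this]
    calc ν Z ≤ ∑' k, ν ((fun x : ∀ k, Γ k => x k) ⁻¹' {a | ψ k a ≠ a * y k}) :=
          measure_iUnion_le _
      _ ≤ ∑' k, (1 / 2) ^ n * (1 / 2) ^ k := ENNReal.tsum_le_tsum h2
      _ = (1 / 2) ^ n * 2 := by
          rw [ENNReal.tsum_mul_left, ENNReal.tsum_geometric]
          congr 1
          rw [one_div, ENNReal.one_sub_inv_two, inv_inv]
  have hsub : ∀ x, x ∉ Z → Ψ x = x * y := by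
    intro x hx
    funext k
    by_contra hc
    exact hx (Set.mem_iUnion.mpr ⟨k, hc⟩)
  constructor
  · calc ν {x | x * y ∈ C} ≤ ν ({x | Ψ x ∈ C} ∪ Z) := by
          apply measure_mono
          intro x hx
          by_cases hxZ : x ∈ Z
          · exact Or.inr hxZ
          · left
            change Ψ x ∈ C
            rw [hsub x hxZ]
            exact hx
      _ ≤ ν {x | Ψ x ∈ C} + ν Z := measure_union_le _ _
      _ ≤ ν C + (1 / 2) ^ n * 2 := by rw [hinv]; gcongr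
  · calc ν C = ν {x | Ψ x ∈ C} := hinv.symm
      _ ≤ ν ({x | x * y ∈ C} ∪ Z) := by
          apply measure_mono
          intro x hx
          by_cases hxZ : x ∈ Z
          · exact Or.inr hxZ
          · left
            change x * y ∈ C
            rw [← hsub x hxZ]
            exact hx
      _ ≤ ν {x | x * y ∈ C} + ν Z := measure_union_le _ _
      _ ≤ ν {x | x * y ∈ C} + (1 / 2) ^ n * 2 := by gcongr

theorem amenable (hΓ : ∀ n, Folner (Γ n)) : AmenableAtOne (∀ n, Γ n) := by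
  intro μ hμ hsupp
  -- compact sets close to `1` of positive measure
  have h1 : ∀ n, ∃ K : Set (∀ n, Γ n), IsCompact K ∧ IsClosed K ∧ 0 < μ n K ∧
      ∀ x ∈ K, ∀ k < n, x k = 1 := by
    intro n
    set U : Set (∀ n, Γ n) := {x | ∀ k < n, x k = 1} with hU
    have hUo : IsOpen U := by
      have : U = ⋂ k ∈ Finset.range n, (fun x : ∀ n, Γ n => x k) ⁻¹' {1} := by
        ext x; simp [hU]
      rw [this]
      exact isOpen_biInter_finset fun k _ => (isOpen_discrete _).preimage (continuous_apply k)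
    have hU1 : U ∈ 𝓝 (1 : ∀ n, Γ n) := hUo.mem_nhds fun k _ => rfl
    obtain ⟨K, hKU, hK, hK', hpos⟩ := exists_compact (μ n) hUo.measurableSet (hsupp n U hU1)
    exact ⟨K, hK, hK', hpos, hKU⟩
  choose K hKc hKcl hKpos hK1 using h1
  let S : ∀ k, Set (Γ k) := fun k => ⋃ n ∈ Finset.range (k + 1), (fun x : ∀ n, Γ n => x k) '' (K n)
  have hS : ∀ k, (S k).Finite := fun k =>
    Set.Finite.biUnion (Finset.finite_toSet _) fun n _ => finite_proj (hKc n) k
  have hKS : ∀ n, ∀ x ∈ K n, ∀ k, n ≤ k → x k ∈ S k := by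
    intro n x hx k hk
    simp only [S, Set.mem_iUnion]
    exact ⟨n, Finset.mem_range.2 (by omega), x, hx, rfl⟩
  obtain ⟨ν₀, hν₀, hinv⟩ := exists_almost hΓ S hS
  refine ⟨fun n => (μ n (K n))⁻¹ • (μ n).restrict (K n), ν₀, fun n => ⟨?_⟩, hν₀, fun n => ?_,
    fun C hC => ?_⟩
  · rw [Measure.smul_apply, Measure.restrict_apply_univ, smul_eq_mul]
    exact ENNReal.inv_mul_cancel (hKpos n).ne' (measure_ne_top _ _)
  · exact (Measure.smul_absolutelyContinuous).trans Measure.absolutelyContinuous_restrict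
  · have hC' : MeasurableSet {p : (∀ n, Γ n) × (∀ n, Γ n) | p.1 * p.2 ∈ C} :=
      continuous_mul.measurable hC.measurableSet
    have hn : ∀ n, (ν₀.prod ((μ n (K n))⁻¹ • (μ n).restrict (K n)))
          {p : (∀ n, Γ n) × (∀ n, Γ n) | p.1 * p.2 ∈ C} ≤ ν₀ C + (1 / 2) ^ n * 2 ∧
        ν₀ C ≤ (ν₀.prod ((μ n (K n))⁻¹ • (μ n).restrict (K n)))
          {p : (∀ n, Γ n) × (∀ n, Γ n) | p.1 * p.2 ∈ C} + (1 / 2) ^ n * 2 := by
      intro n
      have hp : IsProbabilityMeasure ((μ n (K n))⁻¹ • (μ n).restrict (K n)) := ⟨by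
        rw [Measure.smul_apply, Measure.restrict_apply_univ, smul_eq_mul]
        exact ENNReal.inv_mul_cancel (hKpos n).ne' (measure_ne_top _ _)⟩
      rw [Measure.prod_apply_symm hC']
      have hae : ∀ᵐ y ∂((μ n (K n))⁻¹ • (μ n).restrict (K n)), y ∈ K n := by
        refine Measure.smul_absolutelyContinuous.ae_le ?_
        exact ae_restrict_mem (hKcl n).measurableSet
      have h3 : ∀ y ∈ K n, ν₀ {x | x * y ∈ C} ≤ ν₀ C + (1 / 2) ^ n * 2 ∧
          ν₀ C ≤ ν₀ {x | x * y ∈ C} + (1 / 2) ^ n * 2 := fun y hy =>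
        hinv n y (hK1 n y hy) (hKS n y hy) C hC.measurableSet
      constructor
      · calc ∫⁻ y, ν₀ ((fun x => (x, y)) ⁻¹' {p : (∀ n, Γ n) × (∀ n, Γ n) | p.1 * p.2 ∈ C})
              ∂((μ n (K n))⁻¹ • (μ n).restrict (K n)) ≤
            ∫⁻ _, (ν₀ C + (1 / 2) ^ n * 2) ∂((μ n (K n))⁻¹ • (μ n).restrict (K n)) := by
              apply lintegral_mono_ae
              filter_upwards [hae] with y hy
              exact (h3 y hy).1
          _ = ν₀ C + (1 / 2) ^ n * 2 := by rw [lintegral_const, measure_univ, mul_one]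
      · have h4 : Measurable fun y : ∀ n, Γ n => ν₀ ((fun x => (x, y)) ⁻¹'
            {p : (∀ n, Γ n) × (∀ n, Γ n) | p.1 * p.2 ∈ C}) :=
          measurable_measure_prodMk_right hC'
        calc ν₀ C = ∫⁻ _, ν₀ C ∂((μ n (K n))⁻¹ • (μ n).restrict (K n)) := by
              rw [lintegral_const, measure_univ, mul_one]
          _ ≤ ∫⁻ y, (ν₀ ((fun x => (x, y)) ⁻¹' {p : (∀ n, Γ n) × (∀ n, Γ n) | p.1 * p.2 ∈ C}) +
              (1 / 2) ^ n * 2) ∂((μ n (K n))⁻¹ • (μ n).restrict (K n)) := by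
              apply lintegral_mono_ae
              filter_upwards [hae] with y hy
              exact (h3 y hy).2
          _ = _ := by rw [lintegral_add_left h4, lintegral_const, measure_univ, mul_one]
    have hδ : Tendsto (fun n : ℕ => (1 / 2 : ℝ≥0∞) ^ n * 2) atTop (𝓝 0) := by
      have h5 := ENNReal.tendsto_pow_atTop_nhds_zero_of_lt_one (r := (1 / 2 : ℝ≥0∞))
        (by rw [one_div]; exact ENNReal.inv_lt_one.mpr (by norm_num))
      have h6 := ENNReal.Tendsto.mul_const (b := (2 : ℝ≥0∞)) h5 (Or.inr (by norm_num))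
      rwa [zero_mul] at h6
    have hup : Tendsto (fun n : ℕ => ν₀ C + (1 / 2 : ℝ≥0∞) ^ n * 2) atTop (𝓝 (ν₀ C)) := by
      have := (tendsto_const_nhds (x := ν₀ C)).add hδ
      rwa [add_zero] at this
    have hlo : Tendsto (fun n : ℕ => ν₀ C - (1 / 2 : ℝ≥0∞) ^ n * 2) atTop (𝓝 (ν₀ C)) := by
      have := ENNReal.Tendsto.sub (tendsto_const_nhds (x := ν₀ C)) hδ
        (Or.inl (measure_ne_top _ _))
      rwa [tsub_zero] at this
    refine tendsto_of_tendsto_of_tendsto_of_le_of_le hlo hup (fun n => ?_) (fun n => (hn n).1)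
    exact tsub_le_iff_right.mpr (hn n).2

end Pool.Agent.Y225.HN
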