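import Mathlib
import Pool.Agent.Y225.HN.Amen

/-!
The infinite dihedral group satisfies the condition of Følner and has an infinite conjugacy class.
-/

set_option autoImplicit false

namespace Pool.Agent.Y225.HN

open DihedralGroup

/-- the infinite dihedral group -/
abbrev DD : Type := DihedralGroup 0

def dr (i : ℤ) : DD := r (i : ZMod 0)
def ds (i : ℤ) : DD := sr (i : ZMod 0)

def sz : DD → ℕ
  | r i => Int.natAbs i
  | sr i => Int.natAbs i

lemma dr_mul_dr (i j : ℤ) : dr i * dr j = dr (i + j) := rfl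
lemma dr_mul_ds (i j : ℤ) : dr i * ds j = ds (j - i) := rfl
lemma ds_mul_dr (i j : ℤ) : ds i * dr j = ds (i + j) := rfl
lemma ds_mul_ds (i j : ℤ) : ds i * ds j = dr (j - i) := rfl
lemma sz_dr (i : ℤ) : sz (dr i) = i.natAbs := rfl
lemma sz_ds (i : ℤ) : sz (ds i) = i.natAbs := rfl

lemma cases_dd (a : DD) : (∃ i, a = dr i) ∨ ∃ i, a = ds i := by
  rcases a with i | i
  · exact Or.inl ⟨i, rfl⟩
  · exact Or.inr ⟨i, rfl⟩

lemma sz_mul (a b : DD) : sz (a * b) ≤ sz a + sz b := by
  rcases cases_dd a with ⟨i, rfl⟩ | ⟨i, rfl⟩ <;> rcases cases_dd b with ⟨j, rfl⟩ | ⟨j, rfl⟩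
  · rw [dr_mul_dr, sz_dr, sz_dr, sz_dr]; omega
  · rw [dr_mul_ds, sz_dr, sz_ds, sz_ds]; omega
  · rw [ds_mul_dr, sz_ds, sz_dr, sz_ds]; omega
  · rw [ds_mul_ds, sz_ds, sz_dr, sz_ds]; omega

lemma dr_inj : Function.Injective dr := by
  intro i j h
  injection h

lemma ds_inj : Function.Injective ds := by
  intro i j h
  injection h

noncomputable def ball (N : ℕ) : Finset DD :=
  (Finset.Icc (-(N : ℤ)) N).map ⟨dr, dr_inj⟩ ∪ (Finset.Icc (-(N : ℤ)) N).map ⟨ds, ds_inj⟩

lemma dr_ne_ds (i j : ℤ) : dr i ≠ ds j := by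
  intro h
  cases h

lemma mem_ball (N : ℕ) (a : DD) : a ∈ ball N ↔ sz a ≤ N := by
  unfold ball
  rw [Finset.mem_union, Finset.mem_map, Finset.mem_map]
  rcases cases_dd a with ⟨i, rfl⟩ | ⟨i, rfl⟩
  · rw [sz_dr]
    constructor
    · rintro (⟨j, hj, h⟩ | ⟨j, hj, h⟩)
      · have := dr_inj h
        rw [Finset.mem_Icc] at hj
        omega
      · exact absurd h.symm (dr_ne_ds _ _)
    · intro h
      exact Or.inl ⟨i, by rw [Finset.mem_Icc]; omega, rfl⟩
  · rw [sz_ds]
    constructor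
    · rintro (⟨j, hj, h⟩ | ⟨j, hj, h⟩)
      · exact absurd h (dr_ne_ds _ _)
      · have := ds_inj h
        rw [Finset.mem_Icc] at hj
        omega
    · intro h
      exact Or.inr ⟨i, by rw [Finset.mem_Icc]; omega, rfl⟩

lemma card_ball (N : ℕ) : (ball N).card = 2 * (2 * N + 1) := by
  unfold ball
  rw [Finset.card_union_of_disjoint, Finset.card_map, Finset.card_map, Int.card_Icc]
  · omega
  · rw [Finset.disjoint_left]
    intro a h1 h2
    rw [Finset.mem_map] at h1 h2
    obtain ⟨i, _, rfl⟩ := h1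
    obtain ⟨j, _, h⟩ := h2
    exact dr_ne_ds _ _ h.symm

theorem folner_dd : Folner DD := by
  intro S ε hS hε
  obtain ⟨m, hm⟩ := (hS.image sz).bddAbove
  obtain ⟨N0, hN0⟩ := exists_nat_ge ((4 * m : ℝ) / ε)
  refine ⟨ball (N0 + m), ?_, fun s hs => ?_⟩
  · rw [← Finset.card_pos, card_ball]
    omega
  · have hsm : sz s ≤ m := hm ⟨s, hs, rfl⟩
    have h1 : {a : DD | a ∈ ball (N0 + m) ∧ a * s ∉ ball (N0 + m)} ⊆
        ((ball (N0 + m) \ ball N0 : Finset DD) : Set DD) := by
      rintro a ⟨ha, has⟩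
      rw [Finset.mem_coe, Finset.mem_sdiff]
      refine ⟨ha, fun h => has ?_⟩
      rw [mem_ball] at h ⊢
      have := sz_mul a s
      omega
    have h2 : ball N0 ⊆ ball (N0 + m) := by
      intro a ha
      rw [mem_ball] at ha ⊢
      omega
    have h3 : {a : DD | a ∈ ball (N0 + m) ∧ a * s ∉ ball (N0 + m)}.ncard ≤ 4 * m := by
      refine (Set.ncard_le_ncard h1 (Finset.finite_toSet _)).trans ?_
      rw [Set.ncard_coe_finset, Finset.card_sdiff_of_subset h2, card_ball, card_ball]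
      omega
    have h4 : ((4 * m : ℕ) : ℝ) ≤ ε * (ball (N0 + m)).card := by
      rw [card_ball]
      rw [div_le_iff₀ hε] at hN0
      push_cast
      nlinarith [Nat.cast_nonneg (α := ℝ) m, Nat.cast_nonneg (α := ℝ) N0]
    exact le_trans (by exact_mod_cast h3) h4

theorem not_fc_dd : ¬ FC DD := by
  intro h
  have h1 := h (ds 0)
  have h2 : (Set.range fun g : DD => g * ds 0 * g⁻¹).Infinite := by
    refine Set.infinite_of_injective_forall_mem (f := fun i : ℤ => ds (-2 * i)) ?_ ?_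
    · intro i j hij
      have := ds_inj hij
      omega
    · intro i
      refine ⟨dr i, ?_⟩
      have h3 : (dr i)⁻¹ = dr (-i) := rfl
      simp only [h3, dr_mul_ds, ds_mul_dr]
      congr 1
      ring
  exact h2 h1

instance countable_dd : Countable DD := by
  have : (Set.univ : Set DD) = Set.range dr ∪ Set.range ds := by
    ext a
    rcases cases_dd a with ⟨i, rfl⟩ | ⟨i, rfl⟩ <;> simp
  rw [← Set.countable_univ_iff, this]
  exact (Set.countable_range _).union (Set.countable_range _)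

end Pool.Agent.Y225.HN
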