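import Mathlib

/-!
Polish groups with a basis at the identity of open normal subgroups.
-/

set_option autoImplicit false
set_option linter.unusedSectionVars false

open Filter Topology

namespace Pool.Agent.Y225.HN

/-- The identity has a basis of neighbourhoods consisting of open normal subgroups. -/
def NormalBasis (G : Type) [Group G] [TopologicalSpace G] : Prop :=
  ∀ U ∈ 𝓝 (1 : G), ∃ V : Subgroup G, V.Normal ∧ IsOpen (V : Set G) ∧ (V : Set G) ⊆ U

/-- a decreasing sequence of open normal subgroups which is a basis at the identity -/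
structure Chain (G : Type) [Group G] [TopologicalSpace G] where
  V : ℕ → Subgroup G
  normal : ∀ n, (V n).Normal
  isOpen : ∀ n, IsOpen (V n : Set G)
  anti : Antitone V
  basis : ∀ U ∈ 𝓝 (1 : G), ∃ n, (V n : Set G) ⊆ U

variable {G : Type} [Group G] [TopologicalSpace G] [IsTopologicalGroup G] [PolishSpace G]

theorem exists_chain (h : NormalBasis G) : Nonempty (Chain G) := by
  obtain ⟨U, hU⟩ := (𝓝 (1 : G)).exists_antitone_basis
  choose W hW1 hW2 hW3 using fun n => h (U n) (hU.1.mem_of_mem trivial)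
  let V : ℕ → Subgroup G := fun n => Nat.rec (W 0) (fun n v => v ⊓ W (n + 1)) n
  have hV : ∀ n, V (n + 1) = V n ⊓ W (n + 1) := fun n => rfl
  have hVW : ∀ n, V n ≤ W n := by
    intro n
    cases n with
    | zero => exact le_rfl
    | succ n => rw [hV]; exact inf_le_right
  refine ⟨⟨V, ?_, ?_, antitone_nat_of_succ_le fun n => by rw [hV]; exact inf_le_left, ?_⟩⟩
  · intro n
    induction n with
    | zero => exact hW1 0
    | succ n ih =>
      rw [hV]
      exact @Subgroup.normal_inf_normal G _ (V n) (W (n + 1)) ih (hW1 (n + 1))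
  · intro n
    induction n with
    | zero => exact hW2 0
    | succ n ih =>
      rw [hV, Subgroup.coe_inf]
      exact ih.inter (hW2 (n + 1))
  · intro U' hU'
    obtain ⟨n, -, hn⟩ := hU.1.mem_iff.mp hU'
    exact ⟨n, fun x hx => hn (hW3 n (hVW n hx))⟩

namespace Chain

variable (c : Chain G)

lemma conj {n : ℕ} {x : G} (hx : x ∈ c.V n) (g : G) : g * x * g⁻¹ ∈ c.V n :=
  (c.normal n).conj_mem x hx g

lemma conj' {n : ℕ} {x : G} (hx : x ∈ c.V n) (g : G) : g⁻¹ * x * g ∈ c.V n := by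
  have := (c.normal n).conj_mem x hx g⁻¹
  rwa [inv_inv] at this

lemma nhds (y : G) {U : Set G} (hU : U ∈ 𝓝 y) : ∃ n, ∀ v ∈ c.V n, y * v ∈ U := by
  have h1 : (fun v => y * v) ⁻¹' U ∈ 𝓝 (1 : G) := by
    apply (continuous_const_mul y).continuousAt.preimage_mem_nhds
    rwa [mul_one]
  obtain ⟨n, hn⟩ := c.basis _ h1
  exact ⟨n, fun v hv => hn hv⟩

lemma closed_coset (g : G) (n : ℕ) : IsClosed {x | g⁻¹ * x ∈ c.V n} := by
  have h1 : IsClosed (c.V n : Set G) := Subgroup.isClosed_of_isOpen _ (c.isOpen n)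
  exact h1.preimage (continuous_const_mul g⁻¹)

lemma open_coset (g : G) (n : ℕ) : IsOpen {x | g⁻¹ * x ∈ c.V n} :=
  (c.isOpen n).preimage (continuous_const_mul g⁻¹)

lemma coherent {p : ℕ → G} (hp : ∀ k, (p k)⁻¹ * p (k + 1) ∈ c.V k) {k l : ℕ} (h : k ≤ l) :
    (p k)⁻¹ * p l ∈ c.V k := by
  induction l, h using Nat.le_induction with
  | base => rw [inv_mul_cancel]; exact one_mem _
  | succ l hl ih =>
    have h1 := mul_mem ih (c.anti hl (hp l))
    have h2 : (p k)⁻¹ * p l * ((p l)⁻¹ * p (l + 1)) = (p k)⁻¹ * p (l + 1) := by group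
    rwa [h2] at h1

lemma tendsto_of {p : ℕ → G} {y : G} (h : ∀ k, (p k)⁻¹ * y ∈ c.V k) : Tendsto p atTop (𝓝 y) := by
  rw [tendsto_def]
  intro U hU
  obtain ⟨n, hn⟩ := c.nhds y hU
  filter_upwards [eventually_ge_atTop n] with k hk
  have h1 := hn ((p k)⁻¹ * y)⁻¹ (inv_mem (c.anti hk (h k)))
  have h2 : y * ((p k)⁻¹ * y)⁻¹ = p k := by group
  rwa [h2] at h1

/-- The group is complete. -/
theorem complete (p : ℕ → G) (hp : ∀ k, (p k)⁻¹ * p (k + 1) ∈ c.V k) :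
    ∃ y, ∀ k, (p k)⁻¹ * y ∈ c.V k := by
  let _ := TopologicalSpace.upgradeIsCompletelyMetrizable G
  have hp' : ∀ {k l : ℕ}, k ≤ l → (p k)⁻¹ * p l ∈ c.V k := fun h => c.coherent hp h
  have hball : ∀ (q : G) (ε : ℝ), 0 < ε → ∃ n, ∀ v ∈ c.V n, dist (q * v) q < ε := by
    intro q ε hε
    obtain ⟨n, hn⟩ := c.nhds q (Metric.ball_mem_nhds q hε)
    exact ⟨n, fun v hv => hn v hv⟩
  have step : ∀ (s : G × ℕ) (ε : ℝ), 0 < ε → ∃ s' : G × ℕ, s.2 < s'.2 ∧ s.1⁻¹ * s'.1 ∈ c.V s.2 ∧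
      (∀ v ∈ c.V s'.2, dist (s'.1 * v) s'.1 < ε) ∧
      ∃ q, ∀ v ∈ c.V s'.2, dist (p s'.2 * s'.1 * v) q < ε := by
    rintro ⟨g, m⟩ ε hε
    obtain ⟨a, ha⟩ := hball (p m * g) ε hε
    set m1 := max a m with hm1
    set g' := (p m1)⁻¹ * (p m * g) with hg'
    obtain ⟨b, hb⟩ := hball g' ε hε
    set m2 := max b (max m1 (m + 1)) with hm2
    refine ⟨(g', m2), ?_, ?_, ?_, p m * g, ?_⟩
    · simp only; omega
    · simp only
      have h1 := c.conj' (inv_mem (hp' (le_max_right a m))) g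
      have h2 : g⁻¹ * ((p m)⁻¹ * p m1)⁻¹ * g = g⁻¹ * g' := by rw [hg']; group
      rw [← hm1] at h1
      rwa [h2] at h1
    · intro v hv
      exact hb v (c.anti (by omega) hv)
    · intro v hv
      have h1 : (p m1)⁻¹ * p m2 ∈ c.V m1 := hp' (by omega)
      have h2 := mul_mem (c.conj' h1 g') (c.anti (show m1 ≤ m2 by omega) hv)
      have h3 := ha _ (c.anti (show a ≤ m1 by omega) h2)
      have h4 : p m * g * (g'⁻¹ * ((p m1)⁻¹ * p m2) * g' * v) = p m2 * g' * v := by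
        rw [hg']; group
      rwa [h4] at h3
  choose f hf using step
  let s : ℕ → G × ℕ := fun n => Nat.rec (1, 0) (fun n s => f s ((1 / 2 : ℝ) ^ n) (by positivity)) n
  have hs : ∀ n, s (n + 1) = f (s n) ((1 / 2 : ℝ) ^ n) (by positivity) := fun n => rfl
  have h1 : ∀ n, (s n).2 < (s (n + 1)).2 := fun n => by rw [hs]; exact (hf _ _ _).1
  have h2 : ∀ n, (s n).1⁻¹ * (s (n + 1)).1 ∈ c.V (s n).2 := fun n => by rw [hs]; exact (hf _ _ _).2.1
  have h3 : ∀ n, ∀ v ∈ c.V (s (n + 1)).2, dist ((s (n + 1)).1 * v) (s (n + 1)).1 < (1 / 2) ^ n :=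
    fun n => by rw [hs]; exact (hf _ _ _).2.2.1
  have h4 : ∀ n, ∃ q, ∀ v ∈ c.V (s (n + 1)).2, dist (p (s (n + 1)).2 * (s (n + 1)).1 * v) q <
      (1 / 2) ^ n := fun n => by rw [hs]; exact (hf _ _ _).2.2.2
  have hmono : StrictMono fun n => (s n).2 := strictMono_nat_of_lt_succ h1
  have hge : ∀ n, n ≤ (s n).2 := fun n => hmono.le_apply
  have k1 : ∀ {k l : ℕ}, k ≤ l → (s k).1⁻¹ * (s l).1 ∈ c.V (s k).2 := by
    intro k l h
    induction l, h using Nat.le_induction with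
    | base => rw [inv_mul_cancel]; exact one_mem _
    | succ l hl ih =>
      have e1 := mul_mem ih (c.anti (hmono.monotone hl) (h2 l))
      have e2 : (s k).1⁻¹ * (s l).1 * ((s l).1⁻¹ * (s (l + 1)).1) = (s k).1⁻¹ * (s (l + 1)).1 := by
        group
      rwa [e2] at e1
  have k2 : ∀ {k l : ℕ}, k ≤ l → (p (s k).2 * (s k).1)⁻¹ * (p (s l).2 * (s l).1) ∈ c.V (s k).2 := by
    intro k l h
    have e1 := mul_mem (c.conj' (hp' (hmono.monotone h)) (s k).1) (k1 h)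
    have e2 : (s k).1⁻¹ * ((p (s k).2)⁻¹ * p (s l).2) * (s k).1 * ((s k).1⁻¹ * (s l).1) =
        (p (s k).2 * (s k).1)⁻¹ * (p (s l).2 * (s l).1) := by group
    rwa [e2] at e1
  have hC1 : CauchySeq fun n => (s n).1 := by
    rw [Metric.cauchySeq_iff']
    intro ε hε
    obtain ⟨n, hn⟩ := exists_pow_lt_of_lt_one hε (show (1 / 2 : ℝ) < 1 by norm_num)
    refine ⟨n + 1, fun k hk => ?_⟩
    have e1 := h3 n _ (k1 hk)
    have e2 : (s (n + 1)).1 * ((s (n + 1)).1⁻¹ * (s k).1) = (s k).1 := by group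
    rw [e2] at e1
    exact e1.trans hn
  have hC2 : CauchySeq fun n => p (s n).2 * (s n).1 := by
    rw [Metric.cauchySeq_iff']
    intro ε hε
    obtain ⟨n, hn⟩ := exists_pow_lt_of_lt_one (half_pos hε) (show (1 / 2 : ℝ) < 1 by norm_num)
    refine ⟨n + 1, fun k hk => ?_⟩
    obtain ⟨q, hq⟩ := h4 n
    have e1 := hq _ (k2 hk)
    have e2 : p (s (n + 1)).2 * (s (n + 1)).1 * ((p (s (n + 1)).2 * (s (n + 1)).1)⁻¹ *
        (p (s k).2 * (s k).1)) = p (s k).2 * (s k).1 := by group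
    rw [e2] at e1
    have e3 := hq 1 (one_mem _)
    rw [mul_one] at e3
    have e4 := dist_triangle_right (p (s k).2 * (s k).1) (p (s (n + 1)).2 * (s (n + 1)).1) q
    linarith
  obtain ⟨g, hg⟩ := cauchySeq_tendsto_of_complete hC1
  obtain ⟨h, hh⟩ := cauchySeq_tendsto_of_complete hC2
  have g1 : ∀ k, (s k).1⁻¹ * g ∈ c.V (s k).2 := fun k =>
    (c.closed_coset (s k).1 (s k).2).mem_of_tendsto hg
      (by filter_upwards [eventually_ge_atTop k] with l hl using k1 hl)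
  have g2 : ∀ k, (p (s k).2 * (s k).1)⁻¹ * h ∈ c.V (s k).2 := fun k =>
    (c.closed_coset _ (s k).2).mem_of_tendsto hh
      (by filter_upwards [eventually_ge_atTop k] with l hl using k2 hl)
  refine ⟨h * g⁻¹, fun k => ?_⟩
  have e1 := c.conj (mul_mem (g2 k) (inv_mem (g1 k))) (s k).1
  have e2 : (s k).1 * ((p (s k).2 * (s k).1)⁻¹ * h * ((s k).1⁻¹ * g)⁻¹) * (s k).1⁻¹ =
      (p (s k).2)⁻¹ * (h * g⁻¹) := by group
  rw [e2] at e1
  have e3 := mul_mem (hp' (hge k)) (c.anti (hge k) e1)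
  have e4 : (p k)⁻¹ * p (s k).2 * ((p (s k).2)⁻¹ * (h * g⁻¹)) = (p k)⁻¹ * (h * g⁻¹) := by group
  rwa [e4] at e3

/-- a set covered by finitely many cosets of `V n` -/
def Fin (n : ℕ) (X : Set G) : Prop := ∃ F : Set G, F.Finite ∧ ∀ x ∈ X, ∃ g ∈ F, g⁻¹ * x ∈ c.V n

theorem compact_of_fin {X : Set G} (hX : IsClosed X) (h : ∀ n, c.Fin n X) : IsCompact X := by
  rw [isCompact_iff_ultrafilter_le_nhds]
  intro f hf
  have hXf : X ∈ f := by simpa using hf
  have h1 : ∀ n, ∃ g, {x | g⁻¹ * x ∈ c.V n} ∈ f := by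
    intro n
    obtain ⟨F, hF, hFX⟩ := h n
    have h2 : (⋃ g ∈ F, {x | g⁻¹ * x ∈ c.V n}) ∈ f := by
      refine Filter.mem_of_superset hXf ?_
      intro x hx
      obtain ⟨g, hg, hgx⟩ := hFX x hx
      exact Set.mem_biUnion hg hgx
    rw [Ultrafilter.finite_biUnion_mem_iff hF] at h2
    obtain ⟨g, -, hg⟩ := h2
    exact ⟨g, hg⟩
  choose p hp using h1
  obtain ⟨y, hy⟩ := c.complete p (fun k => by
    obtain ⟨x, hx1, hx2⟩ := f.nonempty_of_mem (Filter.inter_mem (hp k) (hp (k + 1)))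
    have h3 : p (k + 1) = x * ((p (k + 1))⁻¹ * x)⁻¹ := by group
    have h4 := mul_mem hx1 (inv_mem (c.anti (Nat.le_succ k) hx2))
    have h5 : (p k)⁻¹ * x * ((p (k + 1))⁻¹ * x)⁻¹ = (p k)⁻¹ * p (k + 1) := by group
    rwa [h5] at h4)
  have hle : (f : Filter G) ≤ 𝓝 y := by
    intro U hU
    obtain ⟨n, hn⟩ := c.nhds y hU
    refine Filter.mem_of_superset (hp n) ?_
    intro x hx
    have h3 := hn _ (mul_mem (inv_mem (hy n)) hx)
    have h4 : y * (((p n)⁻¹ * y)⁻¹ * ((p n)⁻¹ * x)) = x := by group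
    rwa [h4] at h3
  refine ⟨y, ?_, hle⟩
  exact hX.mem_of_frequently_of_tendsto
    (Filter.Eventually.frequently (f := (f : Filter G)) (p := fun x => x ∈ X) hXf) hle

theorem fin_of_compact {X : Set G} (hX : IsCompact X) (n : ℕ) : c.Fin n X := by
  obtain ⟨t, ht⟩ := hX.elim_finite_subcover (fun g : G => {x | g⁻¹ * x ∈ c.V n})
    (fun g => c.open_coset g n) (fun x _ => Set.mem_iUnion.mpr ⟨x, by
      show x⁻¹ * x ∈ c.V n
      rw [inv_mul_cancel]; exact one_mem _⟩)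
  refine ⟨t, t.finite_toSet, fun x hx => ?_⟩
  have := ht hx
  simp only [Set.mem_iUnion] at this
  obtain ⟨g, hg, hgx⟩ := this
  exact ⟨g, hg, hgx⟩

theorem Fin.mono {n : ℕ} {X Y : Set G} (h : c.Fin n Y) (hXY : X ⊆ Y) : c.Fin n X := by
  obtain ⟨F, hF, hFX⟩ := h
  exact ⟨F, hF, fun x hx => hFX x (hXY hx)⟩

theorem Fin.closure {n : ℕ} {X : Set G} (h : c.Fin n X) : c.Fin n (closure X) := by
  obtain ⟨F, hF, hFX⟩ := h
  refine ⟨F, hF, fun x hx => ?_⟩
  have h1 : IsClosed (⋃ g ∈ F, {x | g⁻¹ * x ∈ c.V n}) :=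
    hF.isClosed_biUnion fun g _ => c.closed_coset g n
  have h2 : X ⊆ ⋃ g ∈ F, {x | g⁻¹ * x ∈ c.V n} := by
    intro x hx
    obtain ⟨g, hg, hgx⟩ := hFX x hx
    exact Set.mem_biUnion hg hgx
  have h3 := closure_minimal h2 h1 hx
  simp only [Set.mem_iUnion] at h3
  obtain ⟨g, hg, hgx⟩ := h3
  exact ⟨g, hg, hgx⟩

end Chain

end Pool.Agent.Y225.HN
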