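import Mathlib
import Pool.Agent.Y225.HN.Pos
import Pool.Agent.Y225.HN.Chain

/-!
Groups with a basis of open normal subgroups, each of which has a conjugacy class which is not
relatively compact: a closed set which is left but not right Haar null.
-/

set_option autoImplicit false
set_option linter.unusedSectionVars false

open MeasureTheory Filter Topology
open scoped ENNReal

namespace Pool.Agent.Y225.HN

section infinite

variable {Γ : Type} [Group Γ] [Countable Γ]

/-- The set of `exists_translates`, with the translating elements in a subgroup. -/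
theorem exists_translates_rel (W : Subgroup Γ) {τ : Γ}
    (hτ : {y : Γ | ∃ w ∈ W, y = w * τ * w⁻¹}.Infinite) :
    ∃ A : Set Γ, (∀ S : Set Γ, S.Finite → ∃ k ∈ W, ∀ x ∈ S, x * k ∈ A) ∧ ∀ x ∈ A, x * τ ∉ A := by
  classical
  obtain ⟨e, he⟩ := exists_surjective_nat Γ
  let F : ℕ → Finset Γ := fun i => (Finset.range (i + 1)).image e
  have hF : ∀ {i j : ℕ}, i ≤ j → F i ⊆ F j := fun {i j} h =>
    Finset.image_subset_image (Finset.range_subset_range.mpr (by omega))
  have key := exists_seq_of_forall_finset_exists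
    (fun p : ℕ × Γ => p.2 ∈ W ∧ ∀ a ∈ F p.1, ∀ b ∈ F p.1, a * p.2 * τ ≠ b * p.2)
    (fun p p' : ℕ × Γ => p.1 < p'.1 ∧ ∀ a ∈ F p.1, ∀ b ∈ F p'.1,
      a * p.2 * τ ≠ b * p'.2 ∧ b * p'.2 * τ ≠ a * p.2) ?_
  · obtain ⟨f, hf1, hf2⟩ := key
    have hmono : ∀ n, n ≤ (f n).1 := by
      intro n
      induction n with
      | zero => exact Nat.zero_le _
      | succ n ih =>
        have := (hf2 n (n + 1) (by omega)).1
        omega
    refine ⟨{x | ∃ n, ∃ a ∈ F (f n).1, x = a * (f n).2}, ?_, ?_⟩
    · intro S hS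
      choose g hg using he
      obtain ⟨N, hN⟩ := (hS.image g).bddAbove
      refine ⟨(f N).2, (hf1 N).1, fun x hx => ⟨N, x, ?_, rfl⟩⟩
      apply hF (hmono N)
      rw [Finset.mem_image]
      refine ⟨g x, ?_, hg x⟩
      rw [Finset.mem_range]
      have := hN ⟨x, hx, rfl⟩
      omega
    · rintro x ⟨n, a, ha, rfl⟩ ⟨m, b, hb, hab⟩
      rcases lt_trichotomy n m with h | h | h
      · exact ((hf2 n m h).2 a ha b hb).1 hab
      · subst h
        exact (hf1 n).2 a ha b hb hab
      · exact ((hf2 m n h).2 b hb a ha).2 hab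
  · intro s _
    set i := s.sup Prod.fst + 1 with hi
    let bad1 : Finset Γ := (F i ×ˢ F i).image (fun q => q.1⁻¹ * q.2)
    let E : Finset Γ := s.biUnion fun p => ((F p.1 ×ˢ F i).image (fun q => q.2⁻¹ * q.1 * p.2 * τ)) ∪
      ((F p.1 ×ˢ F i).image (fun q => q.2⁻¹ * q.1 * p.2 * τ⁻¹))
    obtain ⟨c, ⟨k, hkW, rfl⟩, hc⟩ := hτ.exists_notMem_finset (bad1 ∪ E.image fun k => k * τ * k⁻¹)
    rw [Finset.mem_union, not_or] at hc
    have hk : k ∉ E := fun h => hc.2 (Finset.mem_image_of_mem _ h)
    refine ⟨(i, k), ⟨hkW, ?_⟩, ?_⟩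
    · intro a ha b hb hab
      apply hc.1
      rw [Finset.mem_image]
      refine ⟨(a, b), Finset.mem_product.mpr ⟨ha, hb⟩, ?_⟩
      simp only at hab ⊢
      rw [inv_mul_eq_iff_eq_mul, ← mul_assoc, ← mul_assoc, hab]
      group
    · intro p hp
      refine ⟨?_, fun a ha b hb => ⟨fun hab => ?_, fun hab => ?_⟩⟩
      · have : p.1 ≤ s.sup Prod.fst := Finset.le_sup (f := Prod.fst) hp
        simp only
        omega
      · apply hk
        rw [Finset.mem_biUnion]
        refine ⟨p, hp, Finset.mem_union_left _ ?_⟩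
        rw [Finset.mem_image]
        refine ⟨(a, b), Finset.mem_product.mpr ⟨ha, hb⟩, ?_⟩
        simp only at hab ⊢
        rw [mul_assoc, mul_assoc, inv_mul_eq_iff_eq_mul, ← mul_assoc, hab]
      · apply hk
        rw [Finset.mem_biUnion]
        refine ⟨p, hp, Finset.mem_union_right _ ?_⟩
        rw [Finset.mem_image]
        refine ⟨(a, b), Finset.mem_product.mpr ⟨ha, hb⟩, ?_⟩
        simp only at hab ⊢
        rw [mul_assoc, mul_assoc, inv_mul_eq_iff_eq_mul, ← mul_assoc, ← hab]
        group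

end infinite

variable {G : Type} [Group G] [TopologicalSpace G] [IsTopologicalGroup G] [PolishSpace G]

namespace Chain

variable (c : Chain G)

/-- the conjugacy class of `x` under a subgroup -/
def cls (W : Subgroup G) (x : G) : Set G := {y | ∃ w ∈ W, y = w * x * w⁻¹}

theorem countable_quot (m : ℕ) : Countable (G ⧸ c.V m) := by
  obtain ⟨u, hu⟩ := TopologicalSpace.exists_dense_seq G
  have hs : Function.Surjective (fun i : ℕ => (QuotientGroup.mk (u i) : G ⧸ c.V m)) := by
    intro q
    obtain ⟨x, rfl⟩ := QuotientGroup.mk_surjective q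
    obtain ⟨i, hi⟩ := hu.exists_mem_open (c.open_coset x m) ⟨x, by
      show x⁻¹ * x ∈ c.V m
      rw [inv_mul_cancel]; exact one_mem _⟩
    exact ⟨i, (QuotientGroup.eq.mpr hi).symm⟩
  exact hs.countable

theorem step {N m : ℕ} {τ : G} (hinf : ¬ c.Fin m (cls (c.V N) τ)) :
    ∃ A : Set G, IsClosed A ∧
      (∀ K : Set G, IsCompact K → ∀ h : G, ∃ v ∈ c.V N, ∀ x ∈ K, x * h * v ∈ A) ∧
      (∀ x ∈ A, x * τ ∉ A) ∧ ∀ x ∈ A, ∀ v ∈ c.V m, x * v ∈ A := by
  classical
  have hn : (c.V m).Normal := c.normal m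
  have hcount : Countable (G ⧸ c.V m) := c.countable_quot m
  let π : G →* G ⧸ c.V m := QuotientGroup.mk' (c.V m)
  have hπ : ∀ x y : G, π x = π y ↔ x⁻¹ * y ∈ c.V m := fun x y => QuotientGroup.eq
  have hinf' : {y : G ⧸ c.V m | ∃ w ∈ (c.V N).map π, y = w * π τ * w⁻¹}.Infinite := by
    intro hfin
    apply hinf
    refine ⟨(fun q : G ⧸ c.V m => Function.surjInv (QuotientGroup.mk'_surjective (c.V m)) q) '' _,
      hfin.image _, ?_⟩
    rintro _ ⟨w, hw, rfl⟩
    refine ⟨_, ⟨π (w * τ * w⁻¹), ⟨π w, Subgroup.mem_map_of_mem π hw, by simp⟩, rfl⟩, ?_⟩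
    rw [← hπ]
    exact Function.surjInv_eq (QuotientGroup.mk'_surjective (c.V m)) _
  obtain ⟨A, hA1, hA2⟩ := exists_translates_rel _ hinf'
  have hsat : ∀ x v : G, v ∈ c.V m → π (x * v) = π x := by
    intro x v hv
    rw [eq_comm, hπ]
    rwa [inv_mul_cancel_left]
  refine ⟨π ⁻¹' A, ?_, ?_, ?_, ?_⟩
  · -- the complement is open
    rw [← isOpen_compl_iff, isOpen_iff_mem_nhds]
    intro x hx
    refine Filter.mem_of_superset ((c.open_coset x m).mem_nhds ?_) ?_
    · show x⁻¹ * x ∈ c.V m
      rw [inv_mul_cancel]; exact one_mem _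
    · intro y hy hyA
      apply hx
      show π x ∈ A
      rw [(hπ x y).mpr hy]
      exact hyA
  · intro K hK h
    obtain ⟨F, hF, hFK⟩ := c.fin_of_compact (hK.image (continuous_mul_const h)) m
    obtain ⟨k, hk, hk2⟩ := hA1 (π '' F) (hF.image π)
    obtain ⟨v, hv, rfl⟩ := hk
    refine ⟨v, hv, fun x hx => ?_⟩
    obtain ⟨g, hg, hgx⟩ := hFK (x * h) ⟨x, hx, rfl⟩
    have h1 := hk2 (π g) ⟨g, hg, rfl⟩
    rw [(hπ g (x * h)).mpr hgx] at h1
    show π (x * h * v) ∈ A
    rw [map_mul π (x * h) v]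
    exact h1
  · intro x hx hx2
    have h1 : π (x * τ) ∈ A := hx2
    rw [map_mul] at h1
    exact hA2 _ hx h1
  · intro x hx v hv
    show π (x * v) ∈ A
    rw [hsat x v hv]
    exact hx

end Chain

variable [MeasurableSpace G] [BorelSpace G]

theorem exists_compact' (μ : Measure G) [IsFiniteMeasure μ] {U : Set G}
    (hU : MeasurableSet U) (hpos : 0 < μ U) : ∃ K, K ⊆ U ∧ IsCompact K ∧ IsClosed K ∧ 0 < μ K := by
  have hreg := innerRegular_isCompact_isClosed_measurableSet_of_finite μ
  obtain ⟨K, hKU, ⟨hK, hK'⟩, hp⟩ := hreg hU 0 hpos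
  exact ⟨K, hKU, hK, hK', hp⟩

namespace Chain

variable (c : Chain G)

/-- The case of a chain with a class which is not covered by finitely many cosets in each step. -/
theorem differ_aux (h : ∀ k, ∃ τ ∈ c.V k, ¬ c.Fin (k + 1) (cls (c.V k) τ)) :
    ∃ A : Set G, IsClosed A ∧ LeftHaarNull A ∧ ¬ RightHaarNull A := by
  classical
  choose τ hτ hinf using h
  choose B hB1 hB2 hB3 hB4 using fun k => c.step (hinf k)
  have hAc : IsClosed (⋂ k, B k) := isClosed_iInter hB1
  refine ⟨⋂ k, B k, hAc, ?_, ?_⟩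
  · refine ⟨⋂ k, B k, hAc.measurableSet, subset_rfl, ?_⟩
    -- the partial products
    let p : (ℕ → Bool) → ℕ → G := fun b k => Nat.rec 1 (fun k g => g * if b k then τ k else 1) k
    have hp : ∀ b k, p b (k + 1) = p b k * if b k then τ k else 1 := fun b k => rfl
    have hp1 : ∀ b k, (p b k)⁻¹ * p b (k + 1) ∈ c.V k := by
      intro b k
      rw [hp, inv_mul_cancel_left]
      split_ifs
      · exact hτ k
      · exact one_mem _
    choose x hx using fun b => c.complete (p b) (hp1 b)
    have hpm : ∀ k, Measurable fun b => p b k := by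
      intro k
      induction k with
      | zero => exact measurable_const
      | succ k ih =>
        have h1 : Measurable fun b : ℕ → Bool => (if b k then τ k else (1 : G)) := by
          have : Measurable fun t : Bool => (if t then τ k else (1 : G)) := measurable_from_top
          exact this.comp (measurable_pi_apply k)
        exact ih.mul h1
    have hxm : Measurable x := by
      refine measurable_of_tendsto_metrizable hpm ?_
      rw [tendsto_pi_nhds]
      exact fun b => c.tendsto_of (hx b)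
    have h1 : ¬ Countable ℝ := by
      rw [not_countable_iff]; infer_instance
    let E : ℝ ≃ᵐ (ℕ → Bool) := PolishSpace.measurableEquivNatBoolOfNotCountable h1
    let lam : Measure ℝ := volume.restrict (Set.Icc 0 1)
    have hlam : IsProbabilityMeasure lam := ⟨by simp [lam]⟩
    have hmeas : Measurable fun r => x (E r) := hxm.comp E.measurable
    refine ⟨lam.map fun r => x (E r), Measure.isProbabilityMeasure_map hmeas.aemeasurable,
      fun g => ?_⟩
    have hm : MeasurableSet ((fun x => g * x) '' ⋂ k, B k) := by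
      have : (fun x => g * x) '' (⋂ k, B k) = Homeomorph.mulLeft g '' ⋂ k, B k := rfl
      rw [this]
      exact ((Homeomorph.mulLeft g).isClosed_image.2 hAc).measurableSet
    rw [Measure.map_apply hmeas hm]
    have key : ∀ a b : ℕ → Bool, x a ∈ (fun x => g * x) '' (⋂ k, B k) →
        x b ∈ (fun x => g * x) '' (⋂ k, B k) → ∀ k, (∀ j < k, a j = b j) → a k = true →
          b k = true := by
      rintro a b ⟨y, hy, hya⟩ ⟨z, hz, hzb⟩ k hj hak
      by_contra hbk
      have e0 : ∀ j, j ≤ k → p a j = p b j := by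
        intro j
        induction j with
        | zero => intro _; rfl
        | succ j ih =>
          intro hjk
          rw [hp, hp, ih (by omega), hj j (by omega)]
      have e1 : p a (k + 1) = p a k * τ k := by rw [hp, if_pos hak]
      have e2 : p b (k + 1) = p a k := by rw [hp, if_neg hbk, mul_one, e0 k le_rfl]
      have hy' := Set.mem_iInter.mp hy k
      have hz' := Set.mem_iInter.mp hz k
      have f1 := hB4 k y hy' _ (inv_mem (hx a (k + 1)))
      have f2 := hB4 k z hz' _ (inv_mem (hx b (k + 1)))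
      simp only at hya hzb
      have e3 : y * ((p a (k + 1))⁻¹ * x a)⁻¹ = g⁻¹ * p a k * τ k := by
        rw [e1, ← hya]; group
      have e4 : z * ((p b (k + 1))⁻¹ * x b)⁻¹ = g⁻¹ * p a k := by
        rw [e2, ← hzb]; group
      rw [e3] at f1
      rw [e4] at f2
      exact hB3 k _ f2 f1
    have hs : ((fun r => x (E r)) ⁻¹' ((fun x => g * x) '' ⋂ k, B k)).Subsingleton := by
      intro r hr s hs
      apply E.injective
      funext k
      induction k using Nat.strong_induction_on with
      | _ k ih =>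
        rw [Bool.eq_iff_iff]
        exact ⟨key _ _ hr hs k ih, key _ _ hs hr k (fun j hj => (ih j hj).symm)⟩
    exact hs.measure_zero lam
  · rintro ⟨D, hD, hBD, μ, hμ, h0⟩
    obtain ⟨K, -, hK, -, hpos⟩ := exists_compact' μ MeasurableSet.univ (by simp)
    choose w hw hw2 using fun (k : ℕ) (g : G) => hB2 k K hK g
    let q : ℕ → G := fun k => Nat.rec 1 (fun k g => g * w k g) k
    have hq : ∀ k, q (k + 1) = q k * w k (q k) := fun k => rfl
    obtain ⟨y, hy⟩ := c.complete q (fun k => by
      rw [hq, inv_mul_cancel_left]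
      exact hw k _)
    have hsub : K ⊆ (fun x => x * y⁻¹) '' D := by
      intro x hx
      refine ⟨x * y, hBD (Set.mem_iInter.mpr fun k => ?_), by simp⟩
      have h1 := hB4 k _ (hw2 k (q k) x hx) _ (hy (k + 1))
      have h2 : x * q k * w k (q k) * ((q (k + 1))⁻¹ * y) = x * y := by rw [hq]; group
      rwa [h2] at h1
    have := measure_mono (μ := μ) hsub
    rw [h0] at this
    exact absurd (nonpos_iff_eq_zero.1 this) hpos.ne'

theorem differ (h : ∀ k, ∃ τ ∈ c.V k, ∃ m, ¬ c.Fin m (cls (c.V k) τ)) :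
    ∃ A : Set G, IsClosed A ∧ LeftHaarNull A ∧ ¬ RightHaarNull A := by
  have hmono : ∀ {n m : ℕ} {X : Set G}, n ≤ m → c.Fin m X → c.Fin n X := by
    rintro n m X hnm ⟨F, hF, hFX⟩
    exact ⟨F, hF, fun x hx => by
      obtain ⟨g, hg, hgx⟩ := hFX x hx
      exact ⟨g, hg, c.anti hnm hgx⟩⟩
  have h' : ∀ k, ∃ m, k < m ∧ ∃ τ ∈ c.V k, ¬ c.Fin m (cls (c.V k) τ) := by
    intro k
    obtain ⟨τ, hτ, m, hm⟩ := h k
    exact ⟨max m (k + 1), by omega, τ, hτ, fun hc => hm (hmono (le_max_left _ _) hc)⟩
  choose f hf1 hf2 using h'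
  let n : ℕ → ℕ := fun k => Nat.rec 0 (fun _ a => f a) k
  have hn : ∀ k, n (k + 1) = f (n k) := fun k => rfl
  have hnm : StrictMono n := strictMono_nat_of_lt_succ fun k => by rw [hn]; exact hf1 _
  let c' : Chain G :=
    { V := fun k => c.V (n k)
      normal := fun k => c.normal _
      isOpen := fun k => c.isOpen _
      anti := fun a b hab => c.anti (hnm.monotone hab)
      basis := fun U hU => by
        obtain ⟨k, hk⟩ := c.basis U hU
        exact ⟨k, fun x hx => hk (c.anti (hnm.le_apply) hx)⟩ }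
  apply c'.differ_aux
  intro k
  obtain ⟨τ, hτ, hτ2⟩ := hf2 (n k)
  exact ⟨τ, hτ, hτ2⟩

end Chain

end Pool.Agent.Y225.HN
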