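import Mathlib
import Pool.Agent.Y225.HN.GNeg

/-!
Groups with a basis of open normal subgroups, one of which has only relatively compact conjugacy
classes: the left and the right Haar null sets coincide.
-/

set_option autoImplicit false
set_option linter.unusedSectionVars false

open MeasureTheory Filter Topology
open scoped ENNReal

namespace Pool.Agent.Y225.HN

theorem exists_subgroup_rel {Γ : Type} [Group Γ] (W : Subgroup Γ)
    (hW : ∀ x ∈ W, {y : Γ | ∃ w ∈ W, y = w * x * w⁻¹}.Finite) {S : Set Γ} (hS : S.Finite)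
    (hSW : ∀ s ∈ S, s ∈ W) :
    ∃ H : Subgroup Γ, Finite H ∧ ∀ s ∈ S, ∀ w ∈ W, s * w * s⁻¹ * w⁻¹ ∈ H := by
  have hFC : FC W := by
    intro x
    apply Set.Finite.of_finite_image (f := Subtype.val)
    · refine (hW x x.2).subset ?_
      rintro _ ⟨_, ⟨g, rfl⟩, rfl⟩
      exact ⟨g, g.2, rfl⟩
    · exact Subtype.val_injective.injOn
  have hS' : (Subtype.val ⁻¹' S : Set W).Finite := hS.preimage Subtype.val_injective.injOn
  obtain ⟨H, hH, hH2⟩ := exists_subgroup hFC hS'
  refine ⟨H.map W.subtype, ?_, fun s hs w hw => ?_⟩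
  · have h1 : ((H : Subgroup W) : Set W).Finite := hH
    exact h1.image W.subtype
  · rw [Subgroup.mem_map]
    exact ⟨_, hH2 ⟨s, hSW s hs⟩ hs ⟨w, hw⟩, rfl⟩

variable {G : Type} [Group G] [TopologicalSpace G] [IsTopologicalGroup G] [PolishSpace G]

namespace Chain

variable (c : Chain G)

lemma closed_of_sat {m : ℕ} {X : Set G} (h : ∀ x ∈ X, ∀ v ∈ c.V m, x * v ∈ X) : IsClosed X := by
  rw [← isOpen_compl_iff, isOpen_iff_mem_nhds]
  intro x hx
  refine Filter.mem_of_superset ((c.open_coset x m).mem_nhds ?_) ?_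
  · show x⁻¹ * x ∈ c.V m
    rw [inv_mul_cancel]; exact one_mem _
  · intro y hy hyX
    apply hx
    have h1 := h y hyX _ (inv_mem hy)
    have h2 : y * (x⁻¹ * y)⁻¹ = x := by group
    rwa [h2] at h1

/-- The commutators of a compact set are contained in a compact subgroup. -/
theorem exists_compact_subgroup {N : ℕ} (hN : ∀ x ∈ c.V N, ∀ m, c.Fin m (cls (c.V N) x))
    {K : Set G} (hK : IsCompact K) (hKN : ∀ s ∈ K, s ∈ c.V N) :
    ∃ C : Subgroup G, IsCompact (C : Set G) ∧ ∀ s ∈ K, ∀ w ∈ c.V N, s * w * s⁻¹ * w⁻¹ ∈ C := by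
  classical
  have key : ∀ m, ∃ C : Subgroup G, IsClosed (C : Set G) ∧ c.Fin m (C : Set G) ∧
      ∀ s ∈ K, ∀ w ∈ c.V N, s * w * s⁻¹ * w⁻¹ ∈ C := by
    intro m
    have hn : (c.V m).Normal := c.normal m
    let π : G →* G ⧸ c.V m := QuotientGroup.mk' (c.V m)
    have hπ : ∀ x y : G, π x = π y ↔ x⁻¹ * y ∈ c.V m := fun x y => QuotientGroup.eq
    have hfin : ∀ X : Set G, c.Fin m X → (π '' X).Finite := by
      rintro X ⟨F, hF, hFX⟩
      refine (hF.image π).subset ?_
      rintro _ ⟨x, hx, rfl⟩
      obtain ⟨g, hg, hgx⟩ := hFX x hx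
      exact ⟨g, hg, (hπ _ _).mpr hgx⟩
    obtain ⟨H, hH, hH2⟩ := exists_subgroup_rel ((c.V N).map π) (by
        rintro _ ⟨x, hx, rfl⟩
        refine (hfin _ (hN x hx m)).subset ?_
        rintro _ ⟨_, ⟨w, hw, rfl⟩, rfl⟩
        exact ⟨w * x * w⁻¹, ⟨w, hw, rfl⟩, by simp⟩) (hfin K (c.fin_of_compact hK m)) (by
        rintro _ ⟨s, hs, rfl⟩
        exact Subgroup.mem_map_of_mem π (hKN s hs))
    refine ⟨H.comap π, ?_, ?_, ?_⟩
    · refine c.closed_of_sat (m := m) fun x hx v hv => ?_
      have h1 : π x ∈ H := hx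
      show π (x * v) ∈ H
      have h2 : π x = π (x * v) := by rw [hπ, inv_mul_cancel_left]; exact hv
      rwa [← h2]
    · have hHf : ((H : Subgroup (G ⧸ c.V m)) : Set (G ⧸ c.V m)).Finite := hH
      refine ⟨(fun q : G ⧸ c.V m => Function.surjInv (QuotientGroup.mk'_surjective (c.V m)) q) '' H,
        hHf.image _, fun x hx => ⟨_, ⟨π x, hx, rfl⟩, ?_⟩⟩
      rw [← hπ]
      exact Function.surjInv_eq (QuotientGroup.mk'_surjective (c.V m)) _
    · intro s hs w hw
      have := hH2 (π s) ⟨s, hs, rfl⟩ (π w) (Subgroup.mem_map_of_mem π hw)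
      rw [Subgroup.mem_comap]
      simpa using this
  choose C hC1 hC2 hC3 using key
  refine ⟨⨅ m, C m, ?_, fun s hs w hw => ?_⟩
  · have h1 : ((⨅ m, C m : Subgroup G) : Set G) = ⋂ m, (C m : Set G) := Subgroup.coe_iInf
    rw [h1]
    exact c.compact_of_fin (isClosed_iInter hC1) fun m =>
      Fin.mono c (hC2 m) (Set.iInter_subset _ m)
  · rw [Subgroup.mem_iInf]
    exact fun m => hC3 m s hs w hw

end Chain

variable [MeasurableSpace G] [BorelSpace G]

/-- A probability measure which is right invariant under a compact subgroup. -/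
theorem exists_inv_measure (C : Subgroup G) (hC : IsCompact (C : Set G)) :
    ∃ ν : Measure G, IsProbabilityMeasure ν ∧
      ∀ y ∈ C, ∀ K : Set G, MeasurableSet K → ν {x | x * y ∈ K} = ν K := by
  have hCc : CompactSpace C := isCompact_iff_compactSpace.mp hC
  let lam : Measure C := Measure.haarMeasure ⊤
  have hlam : IsProbabilityMeasure lam :=
    ⟨Measure.haarMeasure_self (K₀ := (⊤ : TopologicalSpace.PositiveCompacts C))⟩
  let j : C → G := fun l => (l : G)⁻¹
  have hj : Continuous j := continuous_subtype_val.inv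
  refine ⟨lam.map j, Measure.isProbabilityMeasure_map hj.measurable.aemeasurable,
    fun y hy K hK => ?_⟩
  have hK' : MeasurableSet {x : G | x * y ∈ K} := (continuous_mul_const y).measurable hK
  rw [Measure.map_apply hj.measurable hK', Measure.map_apply hj.measurable hK]
  let y' : C := ⟨y, hy⟩
  have : j ⁻¹' {x : G | x * y ∈ K} = (fun l : C => y'⁻¹ * l) ⁻¹' (j ⁻¹' K) := by
    ext l
    have : j l * y = j (y'⁻¹ * l) := by
      simp only [j, y', Subgroup.coe_mul, InvMemClass.coe_inv, mul_inv_rev, inv_inv]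
    simp only [Set.mem_preimage, Set.mem_ofPred_eq, this]
  rw [this, measure_preimage_mul]

namespace Chain

variable (c : Chain G)

/-- A measure with small compact support made from a given one by restriction and translation. -/
theorem localize (μ : Measure G) [IsProbabilityMeasure μ] (m : ℕ) :
    ∃ (t : G) (κ : Measure G) (K : Set G), IsProbabilityMeasure κ ∧ IsCompact K ∧
      (∀ s ∈ K, s ∈ c.V m) ∧ (∀ᵐ s ∂κ, s ∈ K) ∧
      ∀ E : Set G, MeasurableSet E → μ {x | t⁻¹ * x ∈ E} = 0 → κ E = 0 := by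
  obtain ⟨u, hu⟩ := TopologicalSpace.exists_dense_seq G
  obtain ⟨i, hi⟩ : ∃ i, μ {x | (u i)⁻¹ * x ∈ c.V m} ≠ 0 := by
    by_contra hc
    push Not at hc
    have h1 : (⋃ i, {x | (u i)⁻¹ * x ∈ c.V m}) = Set.univ := by
      ext x
      simp only [Set.mem_iUnion, Set.mem_univ, iff_true]
      obtain ⟨i, hi⟩ := hu.exists_mem_open (c.open_coset x m) ⟨x, by
        show x⁻¹ * x ∈ c.V m
        rw [inv_mul_cancel]; exact one_mem _⟩
      refine ⟨i, ?_⟩
      have h2 : (x⁻¹ * u i)⁻¹ ∈ c.V m := inv_mem (show x⁻¹ * u i ∈ c.V m from hi)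
      have h3 : (x⁻¹ * u i)⁻¹ = (u i)⁻¹ * x := by group
      rw [h3] at h2
      exact h2
    have h2 := measure_iUnion_null (μ := μ) hc
    rw [h1, measure_univ] at h2
    exact one_ne_zero h2
  obtain ⟨K, hKU, hK, hKc, hpos⟩ :=
    exists_compact' μ (c.open_coset (u i) m).measurableSet (pos_iff_ne_zero.mpr hi)
  have hmul : Measurable (fun x : G => (u i)⁻¹ * x) := (continuous_const_mul _).measurable
  have hprob : IsProbabilityMeasure ((μ K)⁻¹ • μ.restrict K) := ⟨by
    rw [Measure.smul_apply, Measure.restrict_apply_univ, smul_eq_mul]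
    exact ENNReal.inv_mul_cancel hpos.ne' (measure_ne_top _ _)⟩
  refine ⟨u i, ((μ K)⁻¹ • μ.restrict K).map (fun x => (u i)⁻¹ * x), (fun x => (u i)⁻¹ * x) '' K,
    Measure.isProbabilityMeasure_map hmul.aemeasurable, hK.image (continuous_const_mul _),
    ?_, ?_, fun E hE h0 => ?_⟩
  · rintro _ ⟨x, hx, rfl⟩
    exact hKU hx
  · have hm : MeasurableSet ((fun x => (u i)⁻¹ * x) '' K) :=
      (hK.image (continuous_const_mul _)).measurableSet
    refine (ae_map_iff (p := fun s => s ∈ (fun x => (u i)⁻¹ * x) '' K) hmul.aemeasurable hm).mpr ?_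
    refine Measure.smul_absolutelyContinuous.ae_le ?_
    filter_upwards [ae_restrict_mem hKc.measurableSet] with x hx
    exact ⟨x, hx, rfl⟩
  · rw [Measure.map_apply hmul hE, Measure.smul_apply, smul_eq_mul]
    have h3 : μ.restrict K ((fun x => (u i)⁻¹ * x) ⁻¹' E) = 0 :=
      nonpos_iff_eq_zero.mp ((Measure.restrict_apply_le _ _).trans h0.le)
    rw [h3, mul_zero]

/-- A witness for all left translates and for the right translates by `V N`. -/
theorem two_sided {N : ℕ} (hN : ∀ x ∈ c.V N, ∀ m, c.Fin m (cls (c.V N) x)) {B : Set G}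
    (hB : MeasurableSet B) (μ : Measure G) [IsProbabilityMeasure μ]
    (hμ : ∀ g : G, μ {x | g * x ∈ B} = 0) :
    ∃ ν : Measure G, IsProbabilityMeasure ν ∧
      ∀ g : G, ∀ w ∈ c.V N, ν {x | g * x * w ∈ B} = 0 := by
  obtain ⟨t, μ', K, hμ', hK, hKN, hae, hE⟩ := c.localize μ N
  have h0' : ∀ g : G, μ' {x | g * x ∈ B} = 0 := by
    intro g
    refine hE {x | g * x ∈ B} ((continuous_const_mul g).measurable hB) ?_
    have h1 : {x | t⁻¹ * x ∈ {x | g * x ∈ B}} = {x | (g * t⁻¹) * x ∈ B} := by
      ext x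
      simp only [Set.mem_ofPred_eq, mul_assoc]
    rw [h1]
    exact hμ _
  obtain ⟨C, hC, hCK⟩ := c.exists_compact_subgroup hN hK hKN
  obtain ⟨lam, hlam, hinv⟩ := exists_inv_measure C hC
  have hmul : Measurable (fun p : G × G => p.1 * p.2) := continuous_mul.measurable
  refine ⟨(lam.prod μ').map (fun p => p.1 * p.2),
    Measure.isProbabilityMeasure_map hmul.aemeasurable, fun g w hw => ?_⟩
  have hmB : MeasurableSet {x | g * x * w ∈ B} :=
    ((continuous_const.mul continuous_id).mul continuous_const).measurable hB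
  rw [Measure.map_apply hmul hmB, Measure.prod_apply_symm (hmul hmB)]
  have hm2 : Measurable (fun p : G × G => g * p.1 * w * p.2) :=
    (((continuous_const.mul continuous_fst).mul continuous_const).mul continuous_snd).measurable
  have e1 : ∀ᵐ s ∂μ', lam ((fun c => (c, s)) ⁻¹' ((fun p : G × G => p.1 * p.2) ⁻¹'
      {x | g * x * w ∈ B})) = lam ((fun c => (c, s)) ⁻¹'
        ((fun p : G × G => g * p.1 * w * p.2) ⁻¹' B)) := by
    filter_upwards [hae] with s hs
    have h1 := hinv (s * w * s⁻¹ * w⁻¹) (hCK s hs w hw) {c | g * c * w * s ∈ B} (by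
        have : Measurable (fun c : G => g * c * w * s) :=
          (((continuous_const.mul continuous_id).mul continuous_const).mul
            continuous_const).measurable
        exact this hB)
    have h2 : (fun c => (c, s)) ⁻¹' ((fun p : G × G => p.1 * p.2) ⁻¹'
        {x | g * x * w ∈ B}) = {x | x * (s * w * s⁻¹ * w⁻¹) ∈ {c | g * c * w * s ∈ B}} := by
      ext c
      simp only [Set.mem_preimage, Set.mem_ofPred_eq]
      have : g * (c * (s * w * s⁻¹ * w⁻¹)) * w * s = g * (c * s) * w := by group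
      rw [this]
    rw [h2, h1]
    rfl
  rw [lintegral_congr_ae e1, ← Measure.prod_apply_symm (hm2 hB), Measure.prod_apply (hm2 hB)]
  have e2 : ∀ c : G, μ' (Prod.mk c ⁻¹' ((fun p : G × G => g * p.1 * w * p.2) ⁻¹' B)) = 0 :=
    fun c => h0' (g * c * w)
  simp only [e2, lintegral_zero]

end Chain

/-- Resampling one coordinate does not change a product measure. -/
theorem resample (κ : ℕ → Measure G) [∀ i, IsProbabilityMeasure (κ i)] (i : ℕ) :
    ((κ i).prod (Measure.infinitePi κ)).map
      (fun q : G × (ℕ → G) => Function.update q.2 i q.1) = Measure.infinitePi κ := by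
  classical
  apply Measure.eq_infinitePi
  intro s t ht
  have hm : Measurable (fun q : G × (ℕ → G) => Function.update q.2 i q.1) := by
    rw [measurable_pi_iff]
    intro j
    by_cases hj : j = i
    · subst hj
      simp only [Function.update_self]
      exact measurable_fst
    · simp only [Function.update_of_ne hj]
      exact (measurable_pi_apply j).comp measurable_snd
  rw [Measure.map_apply hm (MeasurableSet.pi s.countable_toSet fun j _ => ht j)]
  have h1 : (fun q : G × (ℕ → G) => Function.update q.2 i q.1) ⁻¹' (Set.pi s t) =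
      (if i ∈ s then t i else Set.univ) ×ˢ Set.pi (s.erase i : Finset ℕ) t := by
    ext ⟨a, x⟩
    simp only [Set.mem_preimage, Set.mem_pi, Set.mem_prod, Finset.mem_coe, Finset.mem_erase]
    constructor
    · intro h
      refine ⟨?_, fun j hj => ?_⟩
      · split_ifs with hi
        · have := h i hi
          rwa [Function.update_self] at this
        · trivial
      · have := h j hj.2
        rwa [Function.update_of_ne hj.1] at this
    · rintro ⟨h1, h2⟩ j hj
      by_cases hji : j = i
      · subst hji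
        rw [if_pos hj] at h1
        rwa [Function.update_self]
      · rw [Function.update_of_ne hji]
        exact h2 j ⟨hji, hj⟩
  rw [h1, Measure.prod_prod, Measure.infinitePi_pi _ (fun j _ => ht j)]
  by_cases hi : i ∈ s
  · rw [if_pos hi, Finset.mul_prod_erase s (fun j => κ j (t j)) hi]
  · rw [if_neg hi, measure_univ, one_mul, Finset.erase_eq_of_notMem hi]

namespace Chain

variable (c : Chain G)

/-- Infinite convolution. -/
theorem conv (V₀ : Subgroup G) (hV₀ : ∀ k, c.V k ≤ V₀) (κ : ℕ → Measure G)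
    [∀ i, IsProbabilityMeasure (κ i)] (hκ : ∀ i, ∀ᵐ x ∂(κ i), x ∈ c.V i) :
    ∃ ν : Measure G, IsProbabilityMeasure ν ∧ ∀ i, ∀ E : Set G, MeasurableSet E →
      (∀ g : G, ∀ w ∈ V₀, κ i {x | g * x * w ∈ E} = 0) → ν E = 0 := by
  classical
  let cl : ∀ _ : ℕ, G → G := fun j y => if y ∈ c.V j then y else 1
  have hclm : ∀ j, Measurable (cl j) := fun j =>
    Measurable.ite (c.isOpen j).measurableSet measurable_id measurable_const
  have hclV : ∀ j y, cl j y ∈ c.V j := by
    intro j y
    simp only [cl]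
    split_ifs with h
    · exact h
    · exact one_mem _
  let p : (ℕ → G) → ℕ → G := fun x k => Nat.rec 1 (fun k g => g * cl k (x k)) k
  have hp : ∀ x k, p x (k + 1) = p x k * cl k (x k) := fun x k => rfl
  have hp1 : ∀ x k, (p x k)⁻¹ * p x (k + 1) ∈ c.V k := by
    intro x k
    rw [hp, inv_mul_cancel_left]
    exact hclV k _
  choose Φ hΦ using fun x => c.complete (p x) (hp1 x)
  have hpm : ∀ k, Measurable fun x => p x k := by
    intro k
    induction k with
    | zero => exact measurable_const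
    | succ k ih => exact ih.mul ((hclm k).comp (measurable_pi_apply k))
  have hlim : ∀ x, Tendsto (p x) atTop (𝓝 (Φ x)) := fun x => c.tendsto_of (hΦ x)
  have hΦm : Measurable Φ := by
    refine measurable_of_tendsto_metrizable hpm ?_
    rw [tendsto_pi_nhds]
    exact hlim
  refine ⟨(Measure.infinitePi κ).map Φ, Measure.isProbabilityMeasure_map hΦm.aemeasurable,
    fun i E hE hnull => ?_⟩
  have hupd : Measurable (fun q : G × (ℕ → G) => Function.update q.2 i q.1) := by
    rw [measurable_pi_iff]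
    intro j
    by_cases hj : j = i
    · subst hj
      simp only [Function.update_self]
      exact measurable_fst
    · simp only [Function.update_of_ne hj]
      exact (measurable_pi_apply j).comp measurable_snd
  rw [Measure.map_apply hΦm hE, ← resample κ i, Measure.map_apply hupd (hΦm hE),
    Measure.prod_apply_symm (hupd (hΦm hE))]
  have key : ∀ x : ℕ → G, κ i ((fun a => (a, x)) ⁻¹'
      ((fun q : G × (ℕ → G) => Function.update q.2 i q.1) ⁻¹' (Φ ⁻¹' E))) = 0 := by
    intro x
    -- before the coordinate `i`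
    have e0 : ∀ t : G, ∀ k, k ≤ i → p (Function.update x i t) k = p x k := by
      intro t k
      induction k with
      | zero => intro _; rfl
      | succ k ih =>
        intro hk
        rw [hp, hp, ih (by omega), Function.update_of_ne (by omega)]
    have e1 : p (Function.update x i 1) (i + 1) = p x i := by
      rw [hp, e0 1 i le_rfl, Function.update_self]
      simp [cl]
    have e2 : ∀ t ∈ c.V i, ∀ k, i + 1 ≤ k → p (Function.update x i t) k =
        p x i * t * (p x i)⁻¹ * p (Function.update x i 1) k := by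
      intro t ht k hk
      induction k, hk using Nat.le_induction with
      | base =>
        rw [e1, hp, e0 t i le_rfl, Function.update_self]
        simp only [cl, if_pos ht]
        group
      | succ k hk ih =>
        rw [hp, hp, ih, Function.update_of_ne (by omega), Function.update_of_ne (by omega)]
        group
    have e3 : ∀ t ∈ c.V i, Φ (Function.update x i t) =
        p x i * t * (p x i)⁻¹ * Φ (Function.update x i 1) := by
      intro t ht
      have h1 := (hlim (Function.update x i 1)).const_mul (p x i * t * (p x i)⁻¹)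
      have h2 : (fun k => p x i * t * (p x i)⁻¹ * p (Function.update x i 1) k) =ᶠ[atTop]
          p (Function.update x i t) := by
        filter_upwards [eventually_ge_atTop (i + 1)] with k hk
        exact (e2 t ht k hk).symm
      exact tendsto_nhds_unique (hlim _) (h1.congr' h2)
    set b := (p x i)⁻¹ * Φ (Function.update x i 1) with hb
    have hbV : b ∈ V₀ := by
      have := hΦ (Function.update x i 1) (i + 1)
      rw [e1] at this
      exact hV₀ _ this
    have h3 := hnull (p x i) b hbV
    have h4 : ∀ᵐ t ∂(κ i), Φ (Function.update x i t) ∉ E := by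
      have h5 : ∀ᵐ t ∂(κ i), p x i * t * b ∉ E := by
        rw [ae_iff]
        simpa using h3
      filter_upwards [hκ i, h5] with t ht ht2
      rw [e3 t ht]
      have h6 : p x i * t * (p x i)⁻¹ * Φ (Function.update x i 1) = p x i * t * b := by
        rw [hb]; group
      rwa [h6]
    rw [ae_iff] at h4
    have h7 : ((fun a => (a, x)) ⁻¹' ((fun q : G × (ℕ → G) => Function.update q.2 i q.1) ⁻¹'
        (Φ ⁻¹' E))) = {a | ¬ Φ (Function.update x i a) ∉ E} := by
      ext a
      simp only [Set.mem_preimage, Set.mem_ofPred_eq, not_not]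
    rw [h7]
    exact h4
  simp only [key, lintegral_zero]

/-- The left Haar null sets are right Haar null. -/
theorem left_to_right {N : ℕ} (hN : ∀ x ∈ c.V N, ∀ m, c.Fin m (cls (c.V N) x)) {A : Set G}
    (hA : LeftHaarNull A) : RightHaarNull A := by
  obtain ⟨B, hB, hAB, μ, hμ, h0⟩ := hA
  have h0' : ∀ g : G, μ {x | g * x ∈ B} = 0 := by
    intro g
    rw [← h0 g⁻¹]
    congr 1
    ext x
    constructor
    · intro hx
      exact ⟨g * x, hx, by simp⟩
    · rintro ⟨y, hy, rfl⟩
      simpa using hy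
  obtain ⟨ν, hν, hνB⟩ := c.two_sided hN hB μ h0'
  obtain ⟨u, hu⟩ := TopologicalSpace.exists_dense_seq G
  have hcm : ∀ i, Measurable fun x : G => u i * x * (u i)⁻¹ := fun i =>
    ((continuous_const.mul continuous_id).mul continuous_const).measurable
  have hpr : ∀ i, IsProbabilityMeasure (ν.map (fun x => u i * x * (u i)⁻¹)) := fun i =>
    Measure.isProbabilityMeasure_map (hcm i).aemeasurable
  choose t κ K hκ hK hKV hae hnull using
    fun i => c.localize (ν.map (fun x => u i * x * (u i)⁻¹)) (max N i)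
  let c' : Chain G :=
    { V := fun k => c.V (max N k)
      normal := fun k => c.normal _
      isOpen := fun k => c.isOpen _
      anti := fun a b hab => c.anti (by omega)
      basis := fun U hU => by
        obtain ⟨k, hk⟩ := c.basis U hU
        exact ⟨k, fun x hx => hk (c.anti (by omega) hx)⟩ }
  obtain ⟨η, hη, hη2⟩ := c'.conv (c.V N) (fun k => c.anti (by omega)) κ (fun i => by
    filter_upwards [hae i] with x hx
    exact hKV i x hx)
  refine ⟨B, hB, hAB, η, hη, fun h => ?_⟩
  have him : (fun x => x * h) '' B = {x | x * h⁻¹ ∈ B} := by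
    ext x
    constructor
    · rintro ⟨y, hy, rfl⟩
      simpa using hy
    · intro hx
      exact ⟨x * h⁻¹, hx, by simp⟩
  rw [him]
  obtain ⟨i, hi⟩ := hu.exists_mem_open (c.open_coset h⁻¹ N) ⟨h⁻¹, by
    show (h⁻¹)⁻¹ * h⁻¹ ∈ c.V N
    rw [inv_mul_cancel]; exact one_mem _⟩
  have hi' : (u i)⁻¹ * h⁻¹ ∈ c.V N := by
    have h2 : (h⁻¹⁻¹ * u i)⁻¹ ∈ c.V N := inv_mem (show h⁻¹⁻¹ * u i ∈ c.V N from hi)
    have h3 : (h⁻¹⁻¹ * u i)⁻¹ = (u i)⁻¹ * h⁻¹ := by group
    rwa [h3] at h2
  refine hη2 i {x | x * h⁻¹ ∈ B} ((continuous_mul_const h⁻¹).measurable hB) ?_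
  intro g w hw
  refine hnull i {x | g * x * w ∈ {x | x * h⁻¹ ∈ B}} ?_ ?_
  · exact ((continuous_const.mul continuous_id).mul continuous_const).measurable
      ((continuous_mul_const h⁻¹).measurable hB)
  · have hms : MeasurableSet {x | (t i)⁻¹ * x ∈ {x | g * x * w ∈ {x | x * h⁻¹ ∈ B}}} := by
      have : Measurable fun x : G => g * ((t i)⁻¹ * x) * w * h⁻¹ :=
        (((continuous_const.mul (continuous_const.mul continuous_id)).mul
          continuous_const).mul continuous_const).measurable
      exact this hB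
    rw [Measure.map_apply (hcm i) hms]
    have h4 := hνB (g * (t i)⁻¹ * u i) ((u i)⁻¹ * w * u i * ((u i)⁻¹ * h⁻¹))
      (mul_mem (c.conj' hw (u i)) hi')
    have h5 : (fun x => u i * x * (u i)⁻¹) ⁻¹'
        {x | (t i)⁻¹ * x ∈ {x | g * x * w ∈ {x | x * h⁻¹ ∈ B}}} =
        {x | g * (t i)⁻¹ * u i * x * ((u i)⁻¹ * w * u i * ((u i)⁻¹ * h⁻¹)) ∈ B} := by
      ext x
      simp only [Set.mem_preimage, Set.mem_ofPred_eq]
      have : g * ((t i)⁻¹ * (u i * x * (u i)⁻¹)) * w * h⁻¹ =
          g * (t i)⁻¹ * u i * x * ((u i)⁻¹ * w * u i * ((u i)⁻¹ * h⁻¹)) := by group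
      rw [this]
    rw [h5]
    exact h4

end Chain

/-- inversion exchanges left and right Haar null sets -/
theorem left_of_right' {A : Set G} (hA : RightHaarNull A) :
    LeftHaarNull ((fun x => x⁻¹) ⁻¹' A) := by
  obtain ⟨B, hB, hAB, μ, hμ, h0⟩ := hA
  have hinv : Measurable (fun x : G => x⁻¹) := continuous_inv.measurable
  refine ⟨(fun x => x⁻¹) ⁻¹' B, hinv hB, Set.preimage_mono hAB, μ.map (fun x => x⁻¹),
    Measure.isProbabilityMeasure_map hinv.aemeasurable, fun g => ?_⟩
  have h1 : (fun x => g * x) '' ((fun x => x⁻¹) ⁻¹' B) = (fun x => (g⁻¹ * x)⁻¹) ⁻¹' B := by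
    ext x
    constructor
    · rintro ⟨y, hy, rfl⟩
      simpa using hy
    · intro hx
      exact ⟨g⁻¹ * x, hx, by simp⟩
  have h2 : Measurable (fun x : G => (g⁻¹ * x)⁻¹) :=
    (continuous_inv.comp (continuous_const_mul _)).measurable
  rw [h1, Measure.map_apply hinv (h2 hB)]
  rw [← h0 g⁻¹]
  congr 1
  ext x
  constructor
  · intro hx
    simp only [Set.mem_preimage, mul_inv_rev, inv_inv] at hx
    exact ⟨x * g, hx, by simp⟩
  · rintro ⟨y, hy, rfl⟩
    simpa using hy

theorem Chain.coincide (c : Chain G) {N : ℕ} (hN : ∀ x ∈ c.V N, ∀ m, c.Fin m (cls (c.V N) x))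
    (A : Set G) : LeftHaarNull A ↔ RightHaarNull A := by
  refine ⟨c.left_to_right hN, fun h => ?_⟩
  have h1 := left_of_right' (c.left_to_right hN (left_of_right' h))
  have h2 : (fun x : G => x⁻¹) ⁻¹' ((fun x => x⁻¹) ⁻¹' A) = A := by
    ext x; simp
  rw [h2] at h1
  exact h1

/-- The dichotomy for Polish groups with a basis of open normal subgroups. -/
theorem dichotomy (hG : NormalBasis G) :
    ((∀ A : Set G, LeftHaarNull A ↔ RightHaarNull A) ↔
      ∃ V : Subgroup G, IsOpen (V : Set G) ∧
        ∀ x ∈ V, IsCompact (closure {y : G | ∃ v ∈ V, y = v * x * v⁻¹})) ∧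
    ((¬ ∃ V : Subgroup G, IsOpen (V : Set G) ∧
        ∀ x ∈ V, IsCompact (closure {y : G | ∃ v ∈ V, y = v * x * v⁻¹})) →
      ∃ A : Set G, IsClosed A ∧ LeftHaarNull A ∧ ¬ RightHaarNull A) := by
  obtain ⟨c⟩ := exists_chain hG
  have h2 : (¬ ∃ V : Subgroup G, IsOpen (V : Set G) ∧
        ∀ x ∈ V, IsCompact (closure {y : G | ∃ v ∈ V, y = v * x * v⁻¹})) →
      ∃ A : Set G, IsClosed A ∧ LeftHaarNull A ∧ ¬ RightHaarNull A := by
    intro h
    apply c.differ
    intro k
    by_contra hc
    push Not at hc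
    apply h
    refine ⟨c.V k, c.isOpen k, fun x hx => ?_⟩
    exact c.compact_of_fin isClosed_closure fun m => Chain.Fin.closure c (hc x hx m)
  refine ⟨⟨fun h => ?_, ?_⟩, h2⟩
  · by_contra hc
    obtain ⟨A, -, hA1, hA2⟩ := h2 hc
    exact hA2 ((h A).mp hA1)
  · rintro ⟨V, hV, hVc⟩ A
    obtain ⟨N, hN⟩ := c.basis V (hV.mem_nhds (one_mem V))
    apply c.coincide (N := N)
    intro x hx m
    have h3 := c.fin_of_compact (hVc x (hN hx)) m
    refine Chain.Fin.mono c h3 (subset_closure.trans' ?_)
    rintro y ⟨v, hv, rfl⟩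
    exact ⟨v, hN hv, rfl⟩

end Pool.Agent.Y225.HN
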