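import Mathlib
import Pool.Agent.Y225.HN.Amen
import Pool.Agent.Y225.HN.GPos

/-!
Følner sets in subgroups and in the successive quotients of a chain.
-/

set_option autoImplicit false
set_option linter.unusedSectionVars false

open MeasureTheory Filter Topology
open scoped ENNReal

namespace Pool.Agent.Y225.HN

/-- Subgroups of groups with the condition of Følner. -/
theorem folner_subgroup {Γ : Type} [Group Γ] (hΓ : Folner Γ) (W : Subgroup Γ) {S : Set Γ}
    (hS : S.Finite) (hSW : ∀ s ∈ S, s ∈ W) {ε : ℝ} (hε : 0 < ε) :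
    ∃ F : Finset Γ, F.Nonempty ∧ (∀ a ∈ F, a ∈ W) ∧
      ∀ s ∈ S, (({a : Γ | a ∈ F ∧ a * s ∉ F}.ncard : ℕ) : ℝ) ≤ ε * F.card := by
  classical
  obtain ⟨T, rfl⟩ : ∃ T : Finset Γ, S = T := ⟨hS.toFinset, by simp⟩
  obtain ⟨F, hF, hFS⟩ := hΓ T (ε / (T.card + 1)) hS (by positivity)
  let mk : Γ → Γ ⧸ W := QuotientGroup.mk
  let bad : Γ → Finset Γ := fun s => F.filter (fun a => a * s ∉ F)
  have hbad : ∀ s ∈ T, ((bad s).card : ℝ) ≤ ε / (T.card + 1) * F.card := by
    intro s hs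
    have h1 := hFS s hs
    have h2 : {a : Γ | a ∈ F ∧ a * s ∉ F} = (bad s : Finset Γ) := by
      ext a; simp [bad]
    rwa [h2, Set.ncard_coe_finset] at h1
  have hsum1 : ∀ X : Finset Γ, X ⊆ F →
      ∑ q ∈ F.image mk, ((X.filter (fun a => mk a = q)).card : ℝ) = X.card := by
    intro X hX
    have := Finset.card_eq_sum_card_fiberwise (f := mk) (s := X) (t := F.image mk)
      (fun a ha => Finset.mem_image_of_mem mk (hX ha))
    exact_mod_cast this.symm
  have hsum : ∑ q ∈ F.image mk, ∑ s ∈ T, (((bad s).filter (fun a => mk a = q)).card : ℝ) ≤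
      ∑ q ∈ F.image mk, ε * ((F.filter (fun a => mk a = q)).card : ℝ) := by
    rw [Finset.sum_comm, ← Finset.mul_sum, hsum1 F subset_rfl]
    calc ∑ s ∈ T, ∑ q ∈ F.image mk, (((bad s).filter (fun a => mk a = q)).card : ℝ)
        = ∑ s ∈ T, ((bad s).card : ℝ) := by
          apply Finset.sum_congr rfl
          intro s _
          exact hsum1 _ (Finset.filter_subset _ _)
      _ ≤ ∑ s ∈ T, ε / (T.card + 1) * F.card := Finset.sum_le_sum hbad
      _ = (T.card / (T.card + 1)) * (ε * F.card) := by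
          rw [Finset.sum_const, nsmul_eq_mul]; ring
      _ ≤ 1 * (ε * F.card) := by
          apply mul_le_mul_of_nonneg_right _ (by positivity)
          rw [div_le_one (by positivity)]
          linarith
      _ = ε * F.card := one_mul _
  obtain ⟨q, hq, hqle⟩ := Finset.exists_le_of_sum_le (hF.image mk) hsum
  obtain ⟨g, hg, rfl⟩ := Finset.mem_image.mp hq
  set Fq := F.filter (fun a => mk a = mk g) with hFq
  have hcard : (Fq.image (fun a => g⁻¹ * a)).card = Fq.card :=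
    Finset.card_image_of_injective _ (mul_right_injective g⁻¹)
  refine ⟨Fq.image (fun a => g⁻¹ * a), ⟨_, Finset.mem_image_of_mem _
    (Finset.mem_filter.mpr ⟨hg, rfl⟩)⟩, ?_, ?_⟩
  · intro a ha
    obtain ⟨b, hb, rfl⟩ := Finset.mem_image.mp ha
    exact QuotientGroup.eq.mp (Finset.mem_filter.mp hb).2.symm
  · intro s hs
    rw [hcard]
    have h1 : {a : Γ | a ∈ Fq.image (fun a => g⁻¹ * a) ∧ a * s ∉ Fq.image (fun a => g⁻¹ * a)} ⊆
        (((bad s).filter (fun a => mk a = mk g)).image (fun a => g⁻¹ * a) : Finset Γ) := by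
      rintro a ⟨ha, has⟩
      obtain ⟨b, hb, rfl⟩ := Finset.mem_image.mp ha
      rw [Finset.mem_coe]
      apply Finset.mem_image_of_mem
      obtain ⟨hb1, hb2⟩ := Finset.mem_filter.mp hb
      rw [Finset.mem_filter, Finset.mem_filter]
      refine ⟨⟨hb1, fun hbs => has ?_⟩, hb2⟩
      rw [mul_assoc]
      apply Finset.mem_image_of_mem
      rw [Finset.mem_filter]
      refine ⟨hbs, ?_⟩
      rw [← hb2]
      refine (QuotientGroup.eq.mpr ?_).symm
      rw [inv_mul_cancel_left]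
      exact hSW s hs
    have h2 : {a : Γ | a ∈ Fq.image (fun a => g⁻¹ * a) ∧
        a * s ∉ Fq.image (fun a => g⁻¹ * a)}.ncard ≤ ((bad s).filter (fun a => mk a = mk g)).card := by
      refine (Set.ncard_le_ncard h1 (Finset.finite_toSet _)).trans ?_
      rw [Set.ncard_coe_finset]
      exact Finset.card_image_le
    have h3 : (((bad s).filter (fun a => mk a = mk g)).card : ℝ) ≤
        ∑ s ∈ T, (((bad s).filter (fun a => mk a = mk g)).card : ℝ) :=
      Finset.single_le_sum (f := fun s => (((bad s).filter (fun a => mk a = mk g)).card : ℝ))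
        (fun _ _ => by positivity) hs
    calc (({a : Γ | a ∈ Fq.image (fun a => g⁻¹ * a) ∧
          a * s ∉ Fq.image (fun a => g⁻¹ * a)}.ncard : ℕ) : ℝ)
        ≤ (((bad s).filter (fun a => mk a = mk g)).card : ℝ) := by exact_mod_cast h2
      _ ≤ _ := h3
      _ ≤ ε * Fq.card := hqle

variable {G : Type} [Group G] [TopologicalSpace G] [IsTopologicalGroup G] [PolishSpace G]

namespace Chain

variable (c : Chain G)

/-- Følner sets in `V k / V (k + 1)`, lifted to `G`. -/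
theorem folner_step (k : ℕ) (hk : ∀ V : Subgroup G, ∀ _ : V.Normal, IsOpen (V : Set G) →
    Folner (G ⧸ V)) {Y : Set G} (hY : c.Fin (k + 1) Y) (hYV : ∀ y ∈ Y, y ∈ c.V k) {ε : ℝ}
    (hε : 0 < ε) :
    ∃ F : Finset G, F.Nonempty ∧ (∀ f ∈ F, f ∈ c.V k) ∧
      (∀ f ∈ F, ∀ f' ∈ F, f⁻¹ * f' ∈ c.V (k + 1) → f = f') ∧
      ∀ y ∈ Y, (({f : G | f ∈ F ∧ ∀ f' ∈ F, f'⁻¹ * (f * y) ∉ c.V (k + 1)}.ncard : ℕ) : ℝ) ≤
        ε * F.card := by
  classical
  have hn : (c.V (k + 1)).Normal := c.normal (k + 1)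
  let π : G →* G ⧸ c.V (k + 1) := QuotientGroup.mk' (c.V (k + 1))
  have hπ : ∀ x y : G, π x = π y ↔ x⁻¹ * y ∈ c.V (k + 1) := fun x y => QuotientGroup.eq
  have hfin : (π '' Y).Finite := by
    obtain ⟨F, hF, hFX⟩ := hY
    refine (hF.image π).subset ?_
    rintro _ ⟨x, hx, rfl⟩
    obtain ⟨g, hg, hgx⟩ := hFX x hx
    exact ⟨g, hg, (hπ _ _).mpr hgx⟩
  obtain ⟨F, hF, hFW, hFS⟩ := folner_subgroup (hk (c.V (k + 1)) hn (c.isOpen _))
    ((c.V k).map π) hfin (by
      rintro _ ⟨y, hy, rfl⟩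
      exact Subgroup.mem_map_of_mem π (hYV y hy)) hε
  have hlift : ∀ w : G ⧸ c.V (k + 1), ∃ g : G, π g = w ∧ (w ∈ (c.V k).map π → g ∈ c.V k) := by
    intro w
    by_cases hw : w ∈ (c.V k).map π
    · obtain ⟨g, hg, rfl⟩ := hw
      exact ⟨g, rfl, fun _ => hg⟩
    · obtain ⟨g, rfl⟩ := QuotientGroup.mk'_surjective (c.V (k + 1)) w
      exact ⟨g, rfl, fun h => absurd h hw⟩
  choose σ hσ1 hσ2 using hlift
  have hσi : Function.Injective σ := fun a b hab => by rw [← hσ1 a, ← hσ1 b, hab]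
  refine ⟨F.image σ, hF.image σ, ?_, ?_, ?_⟩
  · intro f hf
    obtain ⟨w, hw, rfl⟩ := Finset.mem_image.mp hf
    exact hσ2 w (hFW w hw)
  · intro f hf f' hf' h
    obtain ⟨w, hw, rfl⟩ := Finset.mem_image.mp hf
    obtain ⟨w', hw', rfl⟩ := Finset.mem_image.mp hf'
    rw [← hπ, hσ1, hσ1] at h
    rw [h]
  · intro y hy
    rw [Finset.card_image_of_injective _ hσi]
    refine le_trans ?_ (hFS (π y) ⟨y, hy, rfl⟩)
    have h1 : {f : G | f ∈ F.image σ ∧ ∀ f' ∈ F.image σ, f'⁻¹ * (f * y) ∉ c.V (k + 1)} ⊆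
        σ '' {a | a ∈ F ∧ a * π y ∉ F} := by
      rintro f ⟨hf, hf2⟩
      obtain ⟨w, hw, rfl⟩ := Finset.mem_image.mp hf
      refine ⟨w, ⟨hw, fun hwy => ?_⟩, rfl⟩
      apply hf2 (σ (w * π y)) (Finset.mem_image_of_mem σ hwy)
      rw [← hπ, hσ1, map_mul, hσ1]
    have h2 : {a | a ∈ F ∧ a * π y ∉ F}.Finite := (Finset.finite_toSet F).subset fun a ha => ha.1
    have h3 := (Set.ncard_le_ncard h1 (h2.image σ)).trans (Set.ncard_image_le h2)
    exact_mod_cast h3

end Chain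

end Pool.Agent.Y225.HN
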