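import Mathlib
import Pool.Agent.Y225.HN.FolGrp

/-!
A sequence of finite sets, almost invariant under right multiplication modulo the chain.
-/

set_option autoImplicit false
set_option linter.unusedSectionVars false

open MeasureTheory Filter Topology
open scoped ENNReal

namespace Pool.Agent.Y225.HN

variable {G : Type} [Group G] [TopologicalSpace G] [IsTopologicalGroup G] [PolishSpace G]

namespace Chain

variable (c : Chain G)

/-- the elements of `Q` which are moved out of `Q` by `y`, modulo `V k` -/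
def Bad (k : ℕ) (Q : Finset G) (y : G) : Set G :=
  {q : G | q ∈ Q ∧ ∀ q' ∈ Q, q'⁻¹ * (q * y) ∉ c.V k}

lemma Bad.finite (k : ℕ) (Q : Finset G) (y : G) : (c.Bad k Q y).Finite :=
  (Finset.finite_toSet Q).subset fun _ h => h.1

/-- the finite sets and their increments -/
structure Seq (K : ℕ → Set G) where
  Q : ℕ → Finset G
  F : ℕ → Finset G
  F0 : ∀ k, (F k).Nonempty
  FV : ∀ k, ∀ f ∈ F k, f ∈ c.V k
  Fi : ∀ k, ∀ f ∈ F k, ∀ f' ∈ F k, f⁻¹ * f' ∈ c.V (k + 1) → f = f'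
  Q0 : Q 0 = {1}
  Qs : ∀ k x, x ∈ Q (k + 1) ↔ ∃ f ∈ F k, ∃ q ∈ Q k, f * q = x
  FB : ∀ k m, m ≤ k → ∀ y ∈ K m, ∀ q ∈ Q k, ∀ q' ∈ Q k, q * y * q'⁻¹ ∈ c.V k →
    (((c.Bad (k + 1) (F k) (q * y * q'⁻¹)).ncard : ℕ) : ℝ) ≤ (1 / 2) ^ (k + 1) * (F k).card

theorem exists_seq (hk : ∀ V : Subgroup G, ∀ _ : V.Normal, IsOpen (V : Set G) → Folner (G ⧸ V))
    {K : ℕ → Set G} (hK : ∀ n, IsCompact (K n)) : Nonempty (c.Seq K) := by
  classical
  have key : ∀ (k : ℕ) (Q : Finset G), ∃ F : Finset G, F.Nonempty ∧ (∀ f ∈ F, f ∈ c.V k) ∧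
      (∀ f ∈ F, ∀ f' ∈ F, f⁻¹ * f' ∈ c.V (k + 1) → f = f') ∧
      ∀ m, m ≤ k → ∀ y ∈ K m, ∀ q ∈ Q, ∀ q' ∈ Q, q * y * q'⁻¹ ∈ c.V k →
        (((c.Bad (k + 1) F (q * y * q'⁻¹)).ncard : ℕ) : ℝ) ≤ (1 / 2) ^ (k + 1) * F.card := by
    intro k Q
    set Z : Set G := ⋃ m ∈ Finset.range (k + 1), ⋃ q ∈ Q, ⋃ q' ∈ Q,
      (fun y => q * y * q'⁻¹) '' K m with hZ
    have hZc : IsCompact Z := by
      refine Finset.isCompact_biUnion _ fun m _ => ?_
      refine Finset.isCompact_biUnion _ fun q _ => ?_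
      refine Finset.isCompact_biUnion _ fun q' _ => ?_
      exact (hK m).image ((continuous_const.mul continuous_id).mul continuous_const)
    obtain ⟨F, h1, h2, h3, h4⟩ := c.folner_step k hk (Y := Z ∩ c.V k)
      (Fin.mono c (c.fin_of_compact hZc (k + 1)) Set.inter_subset_left)
      (fun y hy => hy.2) (ε := (1 / 2) ^ (k + 1)) (by positivity)
    refine ⟨F, h1, h2, h3, fun m hm y hy q hq q' hq' hV => h4 _ ⟨?_, hV⟩⟩
    rw [hZ]
    simp only [Set.mem_iUnion]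
    exact ⟨m, Finset.mem_range.mpr (by omega), q, hq, q', hq', y, hy, rfl⟩
  choose Fof h1 h2 h3 h4 using key
  let Q : ℕ → Finset G := fun k => Nat.rec {1}
    (fun k Q => (Fof k Q ×ˢ Q).image (fun p => p.1 * p.2)) k
  have hQ : ∀ k, Q (k + 1) = (Fof k (Q k) ×ˢ Q k).image (fun p => p.1 * p.2) := fun k => rfl
  refine ⟨⟨Q, fun k => Fof k (Q k), fun k => h1 k _, fun k => h2 k _, fun k => h3 k _, rfl, ?_,
    fun k => h4 k _⟩⟩
  intro k x
  rw [hQ, Finset.mem_image]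
  constructor
  · rintro ⟨⟨f, q⟩, h, rfl⟩
    obtain ⟨hf, hq⟩ := Finset.mem_product.mp h
    exact ⟨f, hf, q, hq, rfl⟩
  · rintro ⟨f, hf, q, hq, rfl⟩
    exact ⟨(f, q), Finset.mem_product.mpr ⟨hf, hq⟩, rfl⟩

namespace Seq

variable {c} {K : ℕ → Set G} (s : c.Seq K)

lemma step_mod {k : ℕ} {f f' q q' : G} (hf : f ∈ s.F k) (hf' : f' ∈ s.F k)
    (h : (f * q)⁻¹ * (f' * q') ∈ c.V k) : q⁻¹ * q' ∈ c.V k := by
  have h1 : f⁻¹ * f' ∈ c.V k := mul_mem (inv_mem (s.FV k f hf)) (s.FV k f' hf')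
  have h2 := mul_mem (inv_mem (c.conj' h1 q)) h
  have h3 : (q⁻¹ * (f⁻¹ * f') * q)⁻¹ * ((f * q)⁻¹ * (f' * q')) = q⁻¹ * q' := by group
  rwa [h3] at h2

lemma inj (k : ℕ) : ∀ q ∈ s.Q k, ∀ q' ∈ s.Q k, q⁻¹ * q' ∈ c.V k → q = q' := by
  induction k with
  | zero =>
    intro q hq q' hq' _
    rw [s.Q0, Finset.mem_singleton] at hq hq'
    rw [hq, hq']
  | succ k ih =>
    intro x hx x' hx' h
    obtain ⟨f, hf, q, hq, rfl⟩ := (s.Qs k x).mp hx
    obtain ⟨f', hf', q', hq', rfl⟩ := (s.Qs k x').mp hx'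
    have h1 := ih q hq q' hq' (s.step_mod hf hf' (c.anti (Nat.le_succ k) h))
    subst h1
    have h2 := c.conj h q
    have h3 : q * ((f * q)⁻¹ * (f' * q)) * q⁻¹ = f⁻¹ * f' := by group
    rw [h3] at h2
    rw [s.Fi k f hf f' hf' h2]

lemma pair_inj (k : ℕ) {f f' q q' : G} (hf : f ∈ s.F k) (hf' : f' ∈ s.F k) (hq : q ∈ s.Q k)
    (hq' : q' ∈ s.Q k) (h : f * q = f' * q') : f = f' ∧ q = q' := by
  have h1 : q = q' := s.inj k q hq q' hq' (s.step_mod hf hf' (by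
    rw [h, inv_mul_cancel]; exact one_mem _))
  subst h1
  exact ⟨mul_right_cancel h, rfl⟩

lemma Q_nonempty (k : ℕ) : (s.Q k).Nonempty := by
  induction k with
  | zero => rw [s.Q0]; exact Finset.singleton_nonempty _
  | succ k ih =>
    obtain ⟨q, hq⟩ := ih
    obtain ⟨f, hf⟩ := s.F0 k
    exact ⟨f * q, (s.Qs k _).mpr ⟨f, hf, q, hq, rfl⟩⟩

lemma sum_Q {M : Type} [AddCommMonoid M] (k : ℕ) (φ : G → M) :
    ∑ x ∈ s.Q (k + 1), φ x = ∑ q ∈ s.Q k, ∑ f ∈ s.F k, φ (f * q) := by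
  classical
  rw [← Finset.sum_product' (f := fun q f => φ (f * q))]
  symm
  apply Finset.sum_bij (fun (p : G × G) _ => p.2 * p.1)
  · rintro ⟨q, f⟩ h
    obtain ⟨hq, hf⟩ := Finset.mem_product.mp h
    exact (s.Qs k _).mpr ⟨f, hf, q, hq, rfl⟩
  · rintro ⟨q, f⟩ h ⟨q', f'⟩ h' he
    obtain ⟨hq, hf⟩ := Finset.mem_product.mp h
    obtain ⟨hq', hf'⟩ := Finset.mem_product.mp h'
    obtain ⟨e1, e2⟩ := s.pair_inj k hf hf' hq hq' he
    simp only at e1 e2
    rw [e1, e2]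
  · intro x hx
    obtain ⟨f, hf, q, hq, rfl⟩ := (s.Qs k x).mp hx
    exact ⟨(q, f), Finset.mem_product.mpr ⟨hq, hf⟩, rfl⟩
  · rintro ⟨q, f⟩ _
    rfl

lemma card_Q (k : ℕ) : (s.Q (k + 1)).card = (s.Q k).card * (s.F k).card := by
  rw [Finset.card_eq_sum_ones, s.sum_Q k (fun _ => 1)]
  simp

/-- The sets are almost invariant. -/
theorem bad (hKV : ∀ n, ∀ y ∈ K n, y ∈ c.V n) {m : ℕ} {y : G} (hy : y ∈ K m) (k : ℕ) (hmk : m ≤ k) :
    (((c.Bad k (s.Q k) y).ncard : ℕ) : ℝ) ≤ ((1 / 2) ^ m - (1 / 2) ^ k) * (s.Q k).card := by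
  classical
  induction k, hmk using Nat.le_induction with
  | base =>
    have h1 : c.Bad m (s.Q m) y = ∅ := by
      ext q
      simp only [Bad, Set.mem_ofPred_eq, Set.mem_empty_iff_false, iff_false, not_and, not_forall]
      intro hq
      refine ⟨q, hq, ?_⟩
      rw [inv_mul_cancel_left, not_not]
      exact hKV m y hy
    rw [h1]
    simp
  | succ k hmk ih =>
    -- the bad elements of the next level
    let Bk : Finset G := (Bad.finite c k (s.Q k) y).toFinset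
    have hBk : ∀ q, q ∈ Bk ↔ q ∈ c.Bad k (s.Q k) y := fun q => by
      simp only [Bk, Set.Finite.mem_toFinset]
    have hBkc : (Bk.card : ℝ) ≤ ((1 / 2) ^ m - (1 / 2) ^ k) * (s.Q k).card := by
      rw [Set.ncard_eq_toFinset_card _ (Bad.finite c k (s.Q k) y)] at ih
      exact ih
    have hgood : ∀ q ∈ s.Q k, q ∉ Bk → ∃ q' ∈ s.Q k, q * y * q'⁻¹ ∈ c.V k := by
      intro q hq hqB
      rw [hBk] at hqB
      simp only [Bad, Set.mem_ofPred_eq, not_and, not_forall, not_not] at hqB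
      obtain ⟨q', hq', h⟩ := hqB hq
      refine ⟨q', hq', ?_⟩
      have := c.conj h q'
      have h2 : q' * (q'⁻¹ * (q * y)) * q'⁻¹ = q * y * q'⁻¹ := by group
      rwa [h2] at this
    have hch : ∀ q, ∃ X : Finset G, (q ∈ s.Q k → q ∉ Bk → ((X.card : ℝ) ≤
        (1 / 2) ^ (k + 1) * (s.F k).card ∧ ∀ f ∈ s.F k, f * q ∈ c.Bad (k + 1) (s.Q (k + 1)) y →
          f ∈ X)) := by
      intro q
      by_cases hq : q ∈ s.Q k
      · by_cases hqB : q ∈ Bk
        · exact ⟨∅, fun _ h => absurd hqB h⟩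
        · obtain ⟨q', hq', hV⟩ := hgood q hq hqB
          refine ⟨(Bad.finite c (k + 1) (s.F k) (q * y * q'⁻¹)).toFinset, fun _ _ => ⟨?_, ?_⟩⟩
          · have := s.FB k m hmk y hy q hq q' hq' hV
            rwa [Set.ncard_eq_toFinset_card _ (Bad.finite c (k + 1) (s.F k) _)] at this
          · intro f hf hfb
            rw [Set.Finite.mem_toFinset]
            refine ⟨hf, fun f' hf' hc => hfb.2 (f' * q') ((s.Qs k _).mpr ⟨f', hf', q', hq', rfl⟩) ?_⟩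
            have h1 := c.conj' hc q'
            have h2 : q'⁻¹ * (f'⁻¹ * (f * (q * y * q'⁻¹))) * q' = (f' * q')⁻¹ * (f * q * y) := by
              group
            rwa [h2] at h1
      · exact ⟨∅, fun h => absurd h hq⟩
    choose X hX using hch
    have hsub : c.Bad (k + 1) (s.Q (k + 1)) y ⊆
        (((Bk ×ˢ s.F k).image (fun p => p.2 * p.1) ∪
          (s.Q k \ Bk).biUnion (fun q => (X q).image (fun f => f * q)) : Finset G) : Set G) := by
      intro x hx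
      obtain ⟨f, hf, q, hq, rfl⟩ := (s.Qs k x).mp hx.1
      rw [Finset.mem_coe, Finset.mem_union]
      by_cases hqB : q ∈ Bk
      · left
        exact Finset.mem_image.mpr ⟨(q, f), Finset.mem_product.mpr ⟨hqB, hf⟩, rfl⟩
      · right
        rw [Finset.mem_biUnion]
        exact ⟨q, Finset.mem_sdiff.mpr ⟨hq, hqB⟩, Finset.mem_image.mpr
          ⟨f, (hX q hq hqB).2 f hf hx, rfl⟩⟩
    have hcard : ((c.Bad (k + 1) (s.Q (k + 1)) y).ncard : ℝ) ≤
        (Bk.card : ℝ) * (s.F k).card + ∑ q ∈ s.Q k \ Bk, ((X q).card : ℝ) := by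
      have h1 := (Set.ncard_le_ncard hsub (Finset.finite_toSet _))
      rw [Set.ncard_coe_finset] at h1
      have h2 := h1.trans (Finset.card_union_le _ _)
      have h3 : ((Bk ×ˢ s.F k).image (fun p => p.2 * p.1)).card ≤ Bk.card * (s.F k).card :=
        Finset.card_image_le.trans (Finset.card_product _ _).le
      have h4 : ((s.Q k \ Bk).biUnion (fun q => (X q).image (fun f => f * q))).card ≤
          ∑ q ∈ s.Q k \ Bk, (X q).card :=
        Finset.card_biUnion_le.trans (Finset.sum_le_sum fun q _ => Finset.card_image_le)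
      have h5 := h2.trans (add_le_add h3 h4)
      exact_mod_cast h5
    have hsumX : ∑ q ∈ s.Q k \ Bk, ((X q).card : ℝ) ≤
        (s.Q k).card * ((1 / 2) ^ (k + 1) * (s.F k).card) := by
      calc ∑ q ∈ s.Q k \ Bk, ((X q).card : ℝ)
          ≤ ∑ q ∈ s.Q k \ Bk, ((1 / 2) ^ (k + 1) * ((s.F k).card : ℝ)) := by
            apply Finset.sum_le_sum
            intro q hq
            obtain ⟨h1, h2⟩ := Finset.mem_sdiff.mp hq
            exact (hX q h1 h2).1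
        _ = ((s.Q k \ Bk).card : ℝ) * ((1 / 2) ^ (k + 1) * (s.F k).card) := by
            rw [Finset.sum_const, nsmul_eq_mul]
        _ ≤ (s.Q k).card * ((1 / 2) ^ (k + 1) * (s.F k).card) := by
            apply mul_le_mul_of_nonneg_right _ (by positivity)
            exact_mod_cast Finset.card_le_card Finset.sdiff_subset
    rw [s.card_Q k]
    push_cast
    have h6 : (Bk.card : ℝ) * (s.F k).card ≤
        ((1 / 2) ^ m - (1 / 2) ^ k) * (s.Q k).card * (s.F k).card :=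
      mul_le_mul_of_nonneg_right hBkc (by positivity)
    have h7 : ((1 / 2 : ℝ) ^ m - (1 / 2) ^ (k + 1)) * ((s.Q k).card * (s.F k).card) =
        ((1 / 2) ^ m - (1 / 2) ^ k) * (s.Q k).card * (s.F k).card +
          (s.Q k).card * ((1 / 2) ^ (k + 1) * (s.F k).card) := by
      rw [pow_succ]; ring
    rw [h7]
    linarith

/-- Counting the points whose translate is in a saturated set. -/
theorem count (hKV : ∀ n, ∀ y ∈ K n, y ∈ c.V n) {m : ℕ} {y : G} (hy : y ∈ K m) (k : ℕ) (hmk : m ≤ k)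
    {E : Set G} (hE : ∀ x ∈ E, ∀ v ∈ c.V k, x * v ∈ E) :
    (({q | q ∈ s.Q k ∧ q * y ∈ E}.ncard : ℕ) : ℝ) ≤
      (({q | q ∈ s.Q k ∧ q ∈ E}.ncard : ℕ) : ℝ) + (1 / 2) ^ m * (s.Q k).card ∧
    (({q | q ∈ s.Q k ∧ q ∈ E}.ncard : ℕ) : ℝ) ≤
      (({q | q ∈ s.Q k ∧ q * y ∈ E}.ncard : ℕ) : ℝ) + (1 / 2) ^ m * (s.Q k).card := by
  classical
  have hb := s.bad hKV hy k hmk
  have hb' : (((c.Bad k (s.Q k) y).ncard : ℕ) : ℝ) ≤ (1 / 2) ^ m * (s.Q k).card := by
    refine hb.trans ?_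
    apply mul_le_mul_of_nonneg_right _ (by positivity)
    have : (0 : ℝ) ≤ (1 / 2) ^ k := by positivity
    linarith
  set Bk := c.Bad k (s.Q k) y with hBk
  have hBf : Bk.Finite := Bad.finite c k (s.Q k) y
  -- the partial map
  have hmap : ∀ q, ∃ q', q ∈ s.Q k → q ∉ Bk → q' ∈ s.Q k ∧ q'⁻¹ * (q * y) ∈ c.V k := by
    intro q
    by_cases h : q ∈ s.Q k ∧ q ∉ Bk
    · obtain ⟨hq, hqB⟩ := h
      rw [hBk] at hqB
      simp only [Bad, Set.mem_ofPred_eq, not_and, not_forall, not_not] at hqB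
      obtain ⟨q', hq', h⟩ := hqB hq
      exact ⟨q', fun _ _ => ⟨hq', h⟩⟩
    · exact ⟨1, fun h1 h2 => absurd ⟨h1, h2⟩ h⟩
  choose φ hφ using hmap
  have hinj : ∀ q ∈ s.Q k, q ∉ Bk → ∀ q' ∈ s.Q k, q' ∉ Bk → φ q = φ q' → q = q' := by
    intro q hq hqB q' hq' hqB' h
    have h1 := (hφ q hq hqB).2
    have h2 := (hφ q' hq' hqB').2
    rw [h] at h1
    have h3 := c.conj (mul_mem (inv_mem h1) h2) y
    have h4 : y * (((φ q')⁻¹ * (q * y))⁻¹ * ((φ q')⁻¹ * (q' * y))) * y⁻¹ = q⁻¹ * q' := by group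
    rw [h4] at h3
    exact s.inj k q hq q' hq' h3
  have hQf : (s.Q k : Set G).Finite := Finset.finite_toSet _
  have hEq : ∀ q ∈ s.Q k, q ∉ Bk → (φ q ∈ E ↔ q * y ∈ E) := by
    intro q hq hqB
    have h1 := (hφ q hq hqB).2
    constructor
    · intro h
      have := hE _ h _ h1
      rwa [mul_inv_cancel_left] at this
    · intro h
      have := hE _ h _ (inv_mem h1)
      have h2 : q * y * ((φ q)⁻¹ * (q * y))⁻¹ = φ q := by group
      rwa [h2] at this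
  have hf1 : {q | q ∈ s.Q k ∧ q * y ∈ E}.Finite := hQf.subset fun q h => h.1
  have hf2 : {q | q ∈ s.Q k ∧ q ∈ E}.Finite := hQf.subset fun q h => h.1
  constructor
  · have h1 : {q | q ∈ s.Q k ∧ q * y ∈ E} ⊆ ({q | q ∈ s.Q k ∧ q * y ∈ E} \ Bk) ∪ Bk := by
      intro q hq
      by_cases h : q ∈ Bk
      · exact Or.inr h
      · exact Or.inl ⟨hq, h⟩
    have h2 : ({q | q ∈ s.Q k ∧ q * y ∈ E} \ Bk).ncard ≤ {q | q ∈ s.Q k ∧ q ∈ E}.ncard := by
      apply Set.ncard_le_ncard_of_injOn φ _ _ hf2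
      · rintro q ⟨⟨hq, hqE⟩, hqB⟩
        exact ⟨(hφ q hq hqB).1, (hEq q hq hqB).mpr hqE⟩
      · rintro q ⟨⟨hq, _⟩, hqB⟩ q' ⟨⟨hq', _⟩, hqB'⟩ h
        exact hinj q hq hqB q' hq' hqB' h
    have h3 := (Set.ncard_le_ncard h1 ((hf1.subset Set.sdiff_subset).union hBf)).trans
      (Set.ncard_union_le _ _)
    have h4 : ({q | q ∈ s.Q k ∧ q * y ∈ E}.ncard : ℝ) ≤
        {q | q ∈ s.Q k ∧ q ∈ E}.ncard + (Bk.ncard : ℝ) := by exact_mod_cast h3.trans (by omega)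
    linarith
  · -- the image of the good points misses few points
    set Gd : Set G := (s.Q k : Set G) \ Bk with hGd
    have hGf : Gd.Finite := hQf.subset Set.sdiff_subset
    have hBQ : Bk ⊆ (s.Q k : Set G) := fun q h => h.1
    have himg : (φ '' Gd) ⊆ (s.Q k : Set G) := by
      rintro _ ⟨q, ⟨hq, hqB⟩, rfl⟩
      exact (hφ q hq hqB).1
    have hinjOn : Set.InjOn φ Gd := by
      rintro q ⟨hq, hqB⟩ q' ⟨hq', hqB'⟩ h
      exact hinj q hq hqB q' hq' hqB' h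
    have h1 : (φ '' Gd).ncard = Gd.ncard := hinjOn.ncard_image
    have h2 : Gd.ncard + Bk.ncard = (s.Q k : Set G).ncard := by
      rw [hGd]
      exact Set.ncard_sdiff_add_ncard_of_subset hBQ hQf
    have h3 : ((s.Q k : Set G) \ (φ '' Gd)).ncard + (φ '' Gd).ncard = (s.Q k : Set G).ncard :=
      Set.ncard_sdiff_add_ncard_of_subset himg hQf
    have h4 : {q | q ∈ s.Q k ∧ q ∈ E} ⊆ (φ '' {q | q ∈ Gd ∧ q * y ∈ E}) ∪
        ((s.Q k : Set G) \ (φ '' Gd)) := by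
      rintro q ⟨hq, hqE⟩
      by_cases h : q ∈ φ '' Gd
      · left
        obtain ⟨r, hr, rfl⟩ := h
        exact ⟨r, ⟨hr, (hEq r hr.1 hr.2).mp hqE⟩, rfl⟩
      · exact Or.inr ⟨hq, h⟩
    have h5 : {q | q ∈ Gd ∧ q * y ∈ E}.Finite := hGf.subset fun q h => h.1
    have h6 := (Set.ncard_le_ncard h4 ((h5.image φ).union (hQf.subset Set.sdiff_subset))).trans
      (Set.ncard_union_le _ _)
    have h7 : (φ '' {q | q ∈ Gd ∧ q * y ∈ E}).ncard ≤ {q | q ∈ s.Q k ∧ q * y ∈ E}.ncard := by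
      refine (Set.ncard_image_le h5).trans (Set.ncard_le_ncard ?_ hf1)
      rintro q ⟨hq, hqE⟩
      exact ⟨hq.1, hqE⟩
    have h8 : {q | q ∈ s.Q k ∧ q ∈ E}.ncard ≤ {q | q ∈ s.Q k ∧ q * y ∈ E}.ncard + Bk.ncard := by
      omega
    have h9 : ({q | q ∈ s.Q k ∧ q ∈ E}.ncard : ℝ) ≤
        {q | q ∈ s.Q k ∧ q * y ∈ E}.ncard + (Bk.ncard : ℝ) := by exact_mod_cast h8
    linarith

end Seq

end Chain

end Pool.Agent.Y225.HN
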