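import Mathlib
import Pool.Agent.Y225.HN.Seq

/-!
Polish groups with a basis of open normal subgroups with amenable quotients are amenable at 1.
-/

set_option autoImplicit false
set_option linter.unusedSectionVars false

open MeasureTheory Filter Topology
open scoped ENNReal

namespace Pool.Agent.Y225.HN

variable {G : Type} [Group G] [TopologicalSpace G] [IsTopologicalGroup G] [PolishSpace G]
  [MeasurableSpace G] [BorelSpace G]

/-- the uniform probability on a finite set -/
noncomputable def uni (F : Finset G) : Measure G :=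
  (F.card : ℝ≥0∞)⁻¹ • ∑ a ∈ F, Measure.dirac a

lemma uni_ind (F : Finset G) {E : Set G} (hE : MeasurableSet E) :
    uni F E = (F.card : ℝ≥0∞)⁻¹ * ∑ a ∈ F, E.indicator 1 a := by
  unfold uni
  rw [Measure.smul_apply, smul_eq_mul, Measure.finsetSum_apply]
  congr 1
  apply Finset.sum_congr rfl
  intro a _
  rw [Measure.dirac_apply' a hE]

lemma uni_apply (F : Finset G) {E : Set G} (hE : MeasurableSet E) :
    uni F E = (F.card : ℝ≥0∞)⁻¹ * (({q | q ∈ F ∧ q ∈ E}.ncard : ℕ) : ℝ≥0∞) := by
  classical
  rw [uni_ind F hE]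
  congr 1
  have h1 : {q | q ∈ F ∧ q ∈ E} = (F.filter (· ∈ E) : Finset G) := by ext q; simp
  rw [h1, Set.ncard_coe_finset, Finset.card_filter]
  push_cast
  apply Finset.sum_congr rfl
  intro a _
  by_cases h : a ∈ E <;> simp [h]

lemma uni_prob {F : Finset G} (hF : F.Nonempty) : IsProbabilityMeasure (uni F) := by
  constructor
  rw [uni_ind F MeasurableSet.univ]
  simp only [Set.indicator_univ, Pi.one_apply, Finset.sum_const, nsmul_eq_mul, mul_one]
  exact ENNReal.inv_mul_cancel (by simpa using hF.ne_empty) (ENNReal.natCast_ne_top _)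

lemma lintegral_uni (F : Finset G) {h : G → ℝ≥0∞} (hm : Measurable h) :
    ∫⁻ x, h x ∂(uni F) = (F.card : ℝ≥0∞)⁻¹ * ∑ a ∈ F, h a := by
  unfold uni
  rw [lintegral_smul_measure, lintegral_finsetSum_measure, smul_eq_mul]
  congr 1
  apply Finset.sum_congr rfl
  intro a _
  rw [lintegral_dirac' a hm]

lemma real_to_enn {a b n : ℕ} (hn : n ≠ 0) {δ : ℝ} (hδ : 0 ≤ δ) (h : (a : ℝ) ≤ b + δ * n) :
    (n : ℝ≥0∞)⁻¹ * (a : ℝ≥0∞) ≤ (n : ℝ≥0∞)⁻¹ * (b : ℝ≥0∞) + ENNReal.ofReal δ := by
  have hn' : (n : ℝ≥0∞) ≠ 0 := by exact_mod_cast hn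
  have h1 : (a : ℝ≥0∞) ≤ b + ENNReal.ofReal δ * n := by
    rw [← ENNReal.ofReal_natCast a, ← ENNReal.ofReal_natCast b, ← ENNReal.ofReal_natCast n,
      ← ENNReal.ofReal_mul hδ, ← ENNReal.ofReal_add (by positivity) (by positivity)]
    exact ENNReal.ofReal_le_ofReal h
  calc (n : ℝ≥0∞)⁻¹ * (a : ℝ≥0∞) ≤ (n : ℝ≥0∞)⁻¹ * (b + ENNReal.ofReal δ * n) := by gcongr
    _ = (n : ℝ≥0∞)⁻¹ * (b : ℝ≥0∞) + ENNReal.ofReal δ := by
      rw [mul_add, mul_comm (ENNReal.ofReal δ), ← mul_assoc,
        ENNReal.inv_mul_cancel hn' (ENNReal.natCast_ne_top _), one_mul]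

namespace Chain

variable {c : Chain G} {K : ℕ → Set G} (s : c.Seq K)

/-- The limit of the uniform measures on the sets `Q k`. -/
theorem Seq.exists_measure : ∃ ν : Measure G, IsProbabilityMeasure ν ∧
    ∀ k, ∀ E : Set G, (∀ x ∈ E, ∀ v ∈ c.V k, x * v ∈ E) → ν E = uni (s.Q k) E := by
  classical
  let κ : ℕ → Measure G := fun k => uni (s.F k)
  have hκ : ∀ k, IsProbabilityMeasure (κ k) := fun k => uni_prob (s.F0 k)
  let cl : ∀ _ : ℕ, G → G := fun j y => if y ∈ c.V j then y else 1
  have hclm : ∀ j, Measurable (cl j) := fun j =>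
    Measurable.ite (c.isOpen j).measurableSet measurable_id measurable_const
  have hclV : ∀ j y, cl j y ∈ c.V j := by
    intro j y
    simp only [cl]
    split_ifs with h
    · exact h
    · exact one_mem _
  let p : (ℕ → G) → ℕ → G := fun x k => Nat.rec 1 (fun k g => cl k (x k) * g) k
  have hp : ∀ x k, p x (k + 1) = cl k (x k) * p x k := fun x k => rfl
  have hp1 : ∀ x k, (p x k)⁻¹ * p x (k + 1) ∈ c.V k := by
    intro x k
    rw [hp, ← mul_assoc]
    exact c.conj' (hclV k _) _
  choose Ψ hΨ using fun x => c.complete (p x) (hp1 x)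
  have hpm : ∀ k, Measurable fun x => p x k := by
    intro k
    induction k with
    | zero => exact measurable_const
    | succ k ih => exact ((hclm k).comp (measurable_pi_apply k)).mul ih
  have hΨm : Measurable Ψ := by
    refine measurable_of_tendsto_metrizable hpm ?_
    rw [tendsto_pi_nhds]
    exact fun x => c.tendsto_of (hΨ x)
  have hlaw : ∀ k, (Measure.infinitePi κ).map (fun x => p x k) = uni (s.Q k) := by
    intro k
    induction k with
    | zero =>
      ext E hE
      rw [Measure.map_apply (hpm 0) hE, s.Q0, uni_ind _ hE]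
      by_cases h : (1 : G) ∈ E
      · have h1 : (fun x : ℕ → G => p x 0) ⁻¹' E = Set.univ := by
          ext x
          simp only [Set.mem_preimage, Set.mem_univ, iff_true]
          exact h
        rw [h1, measure_univ]
        simp [h]
      · have h1 : (fun x : ℕ → G => p x 0) ⁻¹' E = ∅ := by
          ext x
          simp only [Set.mem_preimage, Set.mem_empty_iff_false, iff_false]
          exact h
        rw [h1, measure_empty]
        simp [h]
    | succ k ih =>
      ext E hE
      have hupd : Measurable (fun q : G × (ℕ → G) => Function.update q.2 k q.1) := by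
        rw [measurable_pi_iff]
        intro j
        by_cases hj : j = k
        · subst hj
          simp only [Function.update_self]
          exact measurable_fst
        · simp only [Function.update_of_ne hj]
          exact (measurable_pi_apply j).comp measurable_snd
      have e0 : ∀ (x : ℕ → G) (t : G) (j : ℕ), j ≤ k → p (Function.update x k t) j = p x j := by
        intro x t j
        induction j with
        | zero => intro _; rfl
        | succ j ih2 =>
          intro hj
          rw [hp, hp, ih2 (by omega), Function.update_of_ne (by omega)]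
      have e1 : ∀ (x : ℕ → G) (t : G), p (Function.update x k t) (k + 1) = cl k t * p x k := by
        intro x t
        rw [hp, e0 x t k le_rfl, Function.update_self]
      rw [Measure.map_apply (hpm (k + 1)) hE, ← resample κ k,
        Measure.map_apply hupd (hpm (k + 1) hE), Measure.prod_apply_symm (hupd (hpm (k + 1) hE))]
      have hm2 : Measurable (fun q : G × G => cl k q.1 * q.2) :=
        ((hclm k).comp measurable_fst).mul measurable_snd
      let h : G → ℝ≥0∞ := fun g => κ k {t | cl k t * g ∈ E}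
      have hh : Measurable h := measurable_measure_prodMk_right (hm2 hE)
      have h1 : ∀ x : ℕ → G, κ k ((fun a => (a, x)) ⁻¹'
          ((fun q : G × (ℕ → G) => Function.update q.2 k q.1) ⁻¹'
            ((fun x => p x (k + 1)) ⁻¹' E))) = h (p x k) := by
        intro x
        have : (fun a => (a, x)) ⁻¹' ((fun q : G × (ℕ → G) => Function.update q.2 k q.1) ⁻¹'
            ((fun x => p x (k + 1)) ⁻¹' E)) = {t | cl k t * p x k ∈ E} := by
          ext t
          simp only [Set.mem_preimage, Set.mem_ofPred_eq, e1]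
        rw [this]
      simp only [h1]
      rw [← lintegral_map hh (hpm k), ih, lintegral_uni _ hh, uni_ind _ hE, s.sum_Q k, s.card_Q k]
      have h2 : ∀ g, h g = ((s.F k).card : ℝ≥0∞)⁻¹ * ∑ f ∈ s.F k, E.indicator 1 (f * g) := by
        intro g
        have hm3 : MeasurableSet {t | cl k t * g ∈ E} := ((hclm k).mul_const g) hE
        show uni (s.F k) _ = _
        rw [uni_ind _ hm3]
        congr 1
        apply Finset.sum_congr rfl
        intro f hf
        have h3 : cl k f = f := by
          simp only [cl, if_pos (s.FV k f hf)]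
        by_cases hfE : f * g ∈ E
        · rw [Set.indicator_of_mem hfE, Set.indicator_of_mem (show f ∈ {t | cl k t * g ∈ E} by
            show cl k f * g ∈ E
            rwa [h3])]
          rfl
        · rw [Set.indicator_of_notMem hfE, Set.indicator_of_notMem (show f ∉ {t | cl k t * g ∈ E} by
            show ¬ cl k f * g ∈ E
            rwa [h3])]
      simp only [h2]
      rw [← Finset.mul_sum, ← mul_assoc]
      congr 1
      push_cast
      rw [ENNReal.mul_inv (Or.inr (ENNReal.natCast_ne_top _)) (Or.inl (ENNReal.natCast_ne_top _))]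
  refine ⟨(Measure.infinitePi κ).map Ψ, Measure.isProbabilityMeasure_map hΨm.aemeasurable,
    fun k E hE => ?_⟩
  have hEm : MeasurableSet E := (c.closed_of_sat hE).measurableSet
  rw [← hlaw k, Measure.map_apply hΨm hEm, Measure.map_apply (hpm k) hEm]
  congr 1
  ext x
  simp only [Set.mem_preimage]
  constructor
  · intro h
    have := hE _ h _ (inv_mem (hΨ x k))
    have h2 : Ψ x * ((p x k)⁻¹ * Ψ x)⁻¹ = p x k := by group
    rwa [h2] at this
  · intro h
    have := hE _ h _ (hΨ x k)
    rwa [mul_inv_cancel_left] at this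

/-- A probability measure which is almost right invariant. -/
theorem exists_almost (hk : ∀ V : Subgroup G, ∀ _ : V.Normal, IsOpen (V : Set G) → Folner (G ⧸ V))
    {K : ℕ → Set G} (hK : ∀ n, IsCompact (K n)) (hKV : ∀ n, ∀ y ∈ K n, y ∈ c.V n) :
    ∃ ν : Measure G, IsProbabilityMeasure ν ∧ ∀ n, ∀ y ∈ K n, ∀ C : Set G, IsClosed C →
      ν {x | x * y ∈ C} ≤ ν C + ENNReal.ofReal ((1 / 2) ^ n) ∧
      ν C ≤ ν {x | x * y ∈ C} + ENNReal.ofReal ((1 / 2) ^ n) := by
  obtain ⟨s⟩ := c.exists_seq hk hK
  obtain ⟨ν, hν, hνE⟩ := s.exists_measure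
  refine ⟨ν, hν, fun n y hy C hC => ?_⟩
  -- the inequality for saturated sets
  have hsat : ∀ k, n ≤ k → ∀ E : Set G, (∀ x ∈ E, ∀ v ∈ c.V k, x * v ∈ E) →
      ν {x | x * y ∈ E} ≤ ν E + ENNReal.ofReal ((1 / 2) ^ n) ∧
      ν E ≤ ν {x | x * y ∈ E} + ENNReal.ofReal ((1 / 2) ^ n) := by
    intro k hnk E hE
    have hE' : ∀ x ∈ {x | x * y ∈ E}, ∀ v ∈ c.V k, x * v ∈ {x | x * y ∈ E} := by
      intro x hx v hv
      have h1 := hE _ hx _ (c.conj' hv y)
      have h2 : x * y * (y⁻¹ * v * y) = x * v * y := by group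
      rw [h2] at h1
      exact h1
    have hQ : (s.Q k).card ≠ 0 := (Finset.card_pos.mpr (s.Q_nonempty k)).ne'
    obtain ⟨h1, h2⟩ := s.count hKV hy k hnk hE
    rw [hνE k _ hE', hνE k _ hE, uni_apply _ (c.closed_of_sat hE').measurableSet,
      uni_apply _ (c.closed_of_sat hE).measurableSet]
    exact ⟨real_to_enn hQ (by positivity) h1, real_to_enn hQ (by positivity) h2⟩
  -- saturated neighbourhoods of `C`
  let D : ℕ → Set G := fun k => {x | ∃ v ∈ c.V k, x * v ∈ C}
  have hD : ∀ k, ∀ x ∈ D k, ∀ v ∈ c.V k, x * v ∈ D k := by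
    rintro k x ⟨w, hw, hxw⟩ v hv
    refine ⟨v⁻¹ * w, mul_mem (inv_mem hv) hw, ?_⟩
    have : x * v * (v⁻¹ * w) = x * w := by group
    rwa [this]
  have hDa : Antitone D := by
    rintro a b hab x ⟨v, hv, hxv⟩
    exact ⟨v, c.anti hab hv, hxv⟩
  have hDi : (⋂ k, D k) = C := by
    ext x
    rw [Set.mem_iInter]
    constructor
    · intro h
      choose v hv hxv using h
      have h1 : Tendsto (fun k => x * v k) atTop (𝓝 x) := by
        apply c.tendsto_of
        intro k
        have : (x * v k)⁻¹ * x = (v k)⁻¹ := by group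
        rw [this]
        exact inv_mem (hv k)
      exact hC.mem_of_tendsto h1 (Eventually.of_forall hxv)
    · intro h k
      exact ⟨1, one_mem _, by rwa [mul_one]⟩
  have hDm : ∀ k, MeasurableSet (D k) := fun k => (c.closed_of_sat (hD k)).measurableSet
  have t1 : Tendsto (fun k => ν (D k)) atTop (𝓝 (ν C)) := by
    have := tendsto_measure_iInter_atTop (μ := ν) (fun k => (hDm k).nullMeasurableSet) hDa
      ⟨0, measure_ne_top _ _⟩
    rwa [hDi] at this
  have t2 : Tendsto (fun k => ν {x | x * y ∈ D k}) atTop (𝓝 (ν {x | x * y ∈ C})) := by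
    have h1 : (⋂ k, {x | x * y ∈ D k}) = {x | x * y ∈ C} := by
      ext x
      rw [Set.mem_iInter]
      have h2 : x * y ∈ C ↔ x * y ∈ ⋂ k, D k := by rw [hDi]
      rw [Set.mem_ofPred_eq, h2, Set.mem_iInter]
      rfl
    have := tendsto_measure_iInter_atTop (μ := ν) (s := fun k => {x | x * y ∈ D k})
      (fun k => ((continuous_mul_const y).measurable (hDm k)).nullMeasurableSet)
      (fun a b hab x hx => hDa hab hx) ⟨0, measure_ne_top _ _⟩
    rwa [h1] at this
  constructor
  · refine le_of_tendsto_of_tendsto t2 (t1.add_const _) ?_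
    filter_upwards [eventually_ge_atTop n] with k hk
    exact (hsat k hk _ (hD k)).1
  · refine le_of_tendsto_of_tendsto t1 (t2.add_const _) ?_
    filter_upwards [eventually_ge_atTop n] with k hk
    exact (hsat k hk _ (hD k)).2

end Chain

theorem amenable_at_one (hG : NormalBasis G)
    (hk : ∀ V : Subgroup G, ∀ _ : V.Normal, IsOpen (V : Set G) → Folner (G ⧸ V)) :
    AmenableAtOne G := by
  obtain ⟨c⟩ := exists_chain hG
  intro μ hμ hsupp
  -- compact sets close to `1` of positive measure
  have h1 : ∀ n, ∃ K : Set G, (∀ x ∈ K, x ∈ c.V n) ∧ IsCompact K ∧ IsClosed K ∧ 0 < μ n K := by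
    intro n
    obtain ⟨K, hKU, hK, hK', hpos⟩ := exists_compact' (μ n) (c.isOpen n).measurableSet
      (hsupp n _ ((c.isOpen n).mem_nhds (one_mem _)))
    exact ⟨K, hKU, hK, hK', hpos⟩
  choose K hKV hKc hKcl hKpos using h1
  obtain ⟨ν₀, hν₀, hinv⟩ := Chain.exists_almost (c := c) hk hKc hKV
  refine ⟨fun n => (μ n (K n))⁻¹ • (μ n).restrict (K n), ν₀, fun n => ⟨?_⟩, hν₀, fun n => ?_,
    fun C hC => ?_⟩
  · rw [Measure.smul_apply, Measure.restrict_apply_univ, smul_eq_mul]
    exact ENNReal.inv_mul_cancel (hKpos n).ne' (measure_ne_top _ _)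
  · exact (Measure.smul_absolutelyContinuous).trans Measure.absolutelyContinuous_restrict
  · have hC' : MeasurableSet {p : G × G | p.1 * p.2 ∈ C} :=
      continuous_mul.measurable hC.measurableSet
    have hn : ∀ n, (ν₀.prod ((μ n (K n))⁻¹ • (μ n).restrict (K n)))
          {p : G × G | p.1 * p.2 ∈ C} ≤ ν₀ C + ENNReal.ofReal ((1 / 2) ^ n) ∧
        ν₀ C ≤ (ν₀.prod ((μ n (K n))⁻¹ • (μ n).restrict (K n)))
          {p : G × G | p.1 * p.2 ∈ C} + ENNReal.ofReal ((1 / 2) ^ n) := by
      intro n
      have hp : IsProbabilityMeasure ((μ n (K n))⁻¹ • (μ n).restrict (K n)) := ⟨by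
        rw [Measure.smul_apply, Measure.restrict_apply_univ, smul_eq_mul]
        exact ENNReal.inv_mul_cancel (hKpos n).ne' (measure_ne_top _ _)⟩
      rw [Measure.prod_apply_symm hC']
      have hae : ∀ᵐ y ∂((μ n (K n))⁻¹ • (μ n).restrict (K n)), y ∈ K n := by
        refine Measure.smul_absolutelyContinuous.ae_le ?_
        exact ae_restrict_mem (hKcl n).measurableSet
      have h3 : ∀ y ∈ K n, ν₀ {x | x * y ∈ C} ≤ ν₀ C + ENNReal.ofReal ((1 / 2) ^ n) ∧
          ν₀ C ≤ ν₀ {x | x * y ∈ C} + ENNReal.ofReal ((1 / 2) ^ n) := fun y hy =>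
        hinv n y hy C hC.isClosed
      constructor
      · calc ∫⁻ y, ν₀ ((fun x => (x, y)) ⁻¹' {p : G × G | p.1 * p.2 ∈ C})
              ∂((μ n (K n))⁻¹ • (μ n).restrict (K n)) ≤
            ∫⁻ _, (ν₀ C + ENNReal.ofReal ((1 / 2) ^ n))
              ∂((μ n (K n))⁻¹ • (μ n).restrict (K n)) := by
              apply lintegral_mono_ae
              filter_upwards [hae] with y hy
              exact (h3 y hy).1
          _ = ν₀ C + ENNReal.ofReal ((1 / 2) ^ n) := by
              rw [lintegral_const, measure_univ, mul_one]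
      · have h4 : Measurable fun y : G => ν₀ ((fun x => (x, y)) ⁻¹'
            {p : G × G | p.1 * p.2 ∈ C}) :=
          measurable_measure_prodMk_right hC'
        calc ν₀ C = ∫⁻ _, ν₀ C ∂((μ n (K n))⁻¹ • (μ n).restrict (K n)) := by
              rw [lintegral_const, measure_univ, mul_one]
          _ ≤ ∫⁻ y, (ν₀ ((fun x => (x, y)) ⁻¹' {p : G × G | p.1 * p.2 ∈ C}) +
              ENNReal.ofReal ((1 / 2) ^ n)) ∂((μ n (K n))⁻¹ • (μ n).restrict (K n)) := by
              apply lintegral_mono_ae
              filter_upwards [hae] with y hy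
              exact (h3 y hy).2
          _ = _ := by rw [lintegral_add_left h4, lintegral_const, measure_univ, mul_one]
    have hδ : Tendsto (fun n : ℕ => ENNReal.ofReal ((1 / 2) ^ n)) atTop (𝓝 0) := by
      have h5 : Tendsto (fun n : ℕ => ((1 / 2 : ℝ)) ^ n) atTop (𝓝 0) :=
        tendsto_pow_atTop_nhds_zero_of_lt_one (by norm_num) (by norm_num)
      have h6 := ENNReal.tendsto_ofReal h5
      rwa [ENNReal.ofReal_zero] at h6
    have hup : Tendsto (fun n : ℕ => ν₀ C + ENNReal.ofReal ((1 / 2) ^ n)) atTop (𝓝 (ν₀ C)) := by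
      have := (tendsto_const_nhds (x := ν₀ C)).add hδ
      rwa [add_zero] at this
    have hlo : Tendsto (fun n : ℕ => ν₀ C - ENNReal.ofReal ((1 / 2) ^ n)) atTop (𝓝 (ν₀ C)) := by
      have := ENNReal.Tendsto.sub (tendsto_const_nhds (x := ν₀ C)) hδ
        (Or.inl (measure_ne_top _ _))
      rwa [tsub_zero] at this
    refine tendsto_of_tendsto_of_tendsto_of_le_of_le hlo hup (fun n => ?_) (fun n => (hn n).1)
    exact tsub_le_iff_right.mpr (hn n).2

end Pool.Agent.Y225.HN
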